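import Pool.Agent.J6H96.SM.Stm

set_option autoImplicit false

/-!
# Project SM, module BAD: few outcomes meet a given set in many points
-/

namespace Pool.Agent.J6H96.SM

open Finset

theorem t_BAD : S_BAD := by
  classical
  intro Ω O sl F hF k n0 hn0 hsl hO B hB r hr
  have hFc : (0 : ℝ) < F.card := by exact_mod_cast card_pos.2 hF
  have hsub : (O.filter fun ω => r ≤ (sl ω ∩ B).card) ⊆
      (powersetCard r B).biUnion (fun Q => O.filter fun ω => Q ⊆ sl ω) := by
    intro ω hω
    rw [mem_filter] at hω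
    obtain ⟨Q, hQ, hQc⟩ := exists_subset_card_eq hω.2
    rw [mem_biUnion]
    exact ⟨Q, mem_powersetCard.2 ⟨hQ.trans inter_subset_right, hQc⟩,
      mem_filter.2 ⟨hω.1, hQ.trans inter_subset_left⟩⟩
  have h1 : ((O.filter fun ω => r ≤ (sl ω ∩ B).card).card : ℝ) ≤
      ∑ Q ∈ powersetCard r B, ((O.filter fun ω => Q ⊆ sl ω).card : ℝ) := by
    exact_mod_cast (card_le_card hsub).trans card_biUnion_le
  have h2 : ∀ Q ∈ powersetCard r B, ((O.filter fun ω => Q ⊆ sl ω).card : ℝ) ≤
      ((k : ℝ) / F.card) ^ r * n0 := by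
    intro Q hQ
    rw [mem_powersetCard] at hQ
    have h3 := hO Q (hQ.1.trans hB)
    rw [hQ.2] at h3
    rw [div_pow, div_mul_eq_mul_div, le_div_iff₀ (by positivity)]
    exact h3
  refine h1.trans ((sum_le_sum h2).trans ?_)
  rw [sum_const, nsmul_eq_mul, card_powersetCard]
  have h4 : ((B.card.choose r : ℕ) : ℝ) ≤ (B.card : ℝ) ^ r / r.factorial :=
    Nat.choose_le_pow_div r B.card
  have h5 := Pool.Agent.Y959.Smp.fact_bound r ((k : ℝ) / F.card * B.card) (by positivity) 3
    (by norm_num) (by linarith)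
  calc ((B.card.choose r : ℕ) : ℝ) * (((k : ℝ) / F.card) ^ r * n0)
      ≤ ((B.card : ℝ) ^ r / r.factorial) * (((k : ℝ) / F.card) ^ r * n0) :=
        mul_le_mul_of_nonneg_right h4 (by positivity)
    _ = (((k : ℝ) / F.card * B.card) ^ r / r.factorial) * n0 := by
        rw [mul_pow]; ring
    _ ≤ _ := mul_le_mul_of_nonneg_right h5 hn0

end Pool.Agent.J6H96.SM
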