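import Pool.Agent.J6H96.SM.Stm

set_option autoImplicit false

/-!
# (SM-BAS) the basic inequality for general sets of frequencies

Copy of `Pool.Agent.Y959.Rs.basR_of_good` for general sets `F` of frequencies.
-/

namespace Pool.Agent.J6H96.SM

open Finset Pool.Agent.Y959.Rs Pool.Agent.TH705.DL Pool.Agent.Y959.Her Pool.Agent.Y959.Smp

theorem basF_of_good (F : Finset ℕ) (N Q k : ℕ) (hN : 1 ≤ N) (hFN : F ⊆ Icc 1 N) (hFne : F.Nonempty)
    (Lam : ℝ) (hLam : 0 ≤ Lam) (I : Finset ℕ)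
    (hIF : I ⊆ F) (hIk : I.card = k) (hG : GoodI F (eg N Q) k Lam I) (B : ℝ)
    (hB : ∀ w : ℕ, w ≤ 4 * N ^ 2 * N ^ Q + 1 →
      12000 * (Real.log (4 * (N : ℝ)) * (Lam + 1) * ((Nat.log 2 w : ℝ) + 2)) ≤ B) :
    BasF F N Q k B I := by
  classical
  have hN1 : (1 : ℝ) ≤ N := by exact_mod_cast hN
  have hN0 : (0 : ℝ) < N := by linarith
  intro W a V hW hsep hne hV hGV hVW
  obtain ⟨G, hGd⟩ : ∃ G : ℝ, G = ∑ n ∈ I, ‖a n‖ ^ 2 := ⟨_, rfl⟩
  have hG0 : 0 ≤ G := by rw [hGd]; exact sum_nonneg fun _ _ => sq_nonneg _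
  rw [← hGd] at hGV ⊢
  have hk0 : (0 : ℝ) ≤ k := Nat.cast_nonneg _
  have hkN : (k : ℝ) ≤ N := by
    have h1 : k ≤ N := by
      rw [← hIk]
      refine (card_le_card (hIF.trans hFN)).trans ?_
      rw [Nat.card_Icc]
      omega
    exact_mod_cast h1
  obtain ⟨c, hFc⟩ : ∃ c : ℝ, (F.card : ℝ) = c := ⟨_, rfl⟩
  have hc1 : 1 ≤ c := by
    rw [← hFc]
    exact_mod_cast card_pos.2 hFne
  have hc0 : 0 < c := by linarith
  have hcN : c ≤ N := by
    have h1 : F.card ≤ N := by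
      refine (card_le_card hFN).trans ?_
      rw [Nat.card_Icc]
      omega
    rw [← hFc]
    exact_mod_cast h1
  have hkc : (k : ℝ) ≤ c := by
    rw [← hFc, ← hIk]
    exact_mod_cast card_le_card hIF
  have hM : (0 : ℝ) < 4 * (N : ℝ) ^ 2 := by positivity
  have hlogN : Real.log N ≤ N := by
    have := Real.log_le_sub_one_of_pos hN0
    linarith
  have hlogN0 : 0 ≤ Real.log N := Real.log_nonneg hN1
  obtain ⟨ρ, hρ⟩ : ∃ ρ : ℝ → ℝ, ρ = fun t => (((rd N Q t : ℕ) : ℝ) / (4 * (N : ℝ) ^ 2)) := ⟨_, rfl⟩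
  -- the change of the exponentials
  have hch : ∀ t ∈ W, ∀ n ∈ F, ‖ph t n - ph (ρ t) n‖ ≤ 1 / (4 * N) := by
    intro t ht n hn
    have hn1 := (mem_Icc.1 (hFN hn)).1
    have hn2 := (mem_Icc.1 (hFN hn)).2
    refine (ph_lip t (ρ t) n hn1).trans ?_
    have h1 : |t - ρ t| ≤ 1 / (4 * (N : ℝ) ^ 2) := by
      rw [hρ]
      exact rd_close N Q hN t (hW t ht).1 (hW t ht).2
    have h2 : Real.log n ≤ N := by
      have h3 : Real.log n ≤ Real.log N := by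
        apply Real.log_le_log (by exact_mod_cast hn1)
        exact_mod_cast hn2
      linarith
    have h4 : 0 ≤ Real.log n := Real.log_nonneg (by exact_mod_cast hn1)
    calc |t - ρ t| * Real.log n ≤ 1 / (4 * (N : ℝ) ^ 2) * N := mul_le_mul h1 h2 h4 (by positivity)
      _ = 1 / (4 * N) := by
          field_simp
  obtain ⟨W', hW'⟩ : ∃ W' : Finset (Fin (4 * N ^ 2 * N ^ Q + 1)), W' = W.image (rd N Q) := ⟨_, rfl⟩
  have hinj := rd_inj N Q hN W hW hsep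
  have hcard : W'.card = W.card := by
    rw [hW']
    exact card_image_of_injOn hinj
  have hW'ne : W'.Nonempty := by
    rw [hW']
    exact hne.image _
  -- the large values at the grid
  have hVg : ∀ i ∈ W', 3 / 4 * V ≤ ‖∑ n ∈ I, a n * eg N Q i n‖ := by
    intro i hi
    rw [hW', mem_image] at hi
    obtain ⟨t, ht, rfl⟩ := hi
    have h1 := hVW t ht
    have h2 : ‖∑ n ∈ I, a n * ph t n - ∑ n ∈ I, a n * eg N Q (rd N Q t) n‖ ≤ V / 4 := by
      rw [← sum_sub_distrib]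
      have h3 : ‖∑ n ∈ I, (a n * ph t n - a n * eg N Q (rd N Q t) n)‖ ≤
          ∑ n ∈ I, ‖a n‖ * (1 / (4 * N)) := by
        refine (norm_sum_le _ _).trans (sum_le_sum fun n hn => ?_)
        rw [← mul_sub, norm_mul]
        apply mul_le_mul_of_nonneg_left _ (norm_nonneg _)
        have h4 := hch t ht n (hIF hn)
        rw [hρ] at h4
        exact h4
      rw [← sum_mul] at h3
      have h4 : (∑ n ∈ I, ‖a n‖) ^ 2 ≤ ((N : ℝ) * V) ^ 2 := by
        have h5 := sq_sum_le_card_mul_sum_sq (s := I) (f := fun n => ‖a n‖)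
        rw [hIk, ← hGd] at h5
        refine h5.trans ?_
        calc (k : ℝ) * G ≤ N * V ^ 2 := mul_le_mul hkN hGV hG0 hN0.le
          _ ≤ ((N : ℝ) * V) ^ 2 := by
              rw [mul_pow]
              apply mul_le_mul_of_nonneg_right _ (sq_nonneg _)
              nlinarith
      have h5 : ∑ n ∈ I, ‖a n‖ ≤ N * V := by
        have := abs_le_of_sq_le_sq' h4 (by positivity)
        exact this.2
      calc _ ≤ (∑ n ∈ I, ‖a n‖) * (1 / (4 * N)) := h3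
        _ ≤ (N * V) * (1 / (4 * N)) := mul_le_mul_of_nonneg_right h5 (by positivity)
        _ = V / 4 := by
            field_simp
    have h3 := norm_sub_norm_le (∑ n ∈ I, a n * ph t n) (∑ n ∈ I, a n * eg N Q (rd N Q t) n)
    linarith
  obtain ⟨b', hb'⟩ := dual_bound (eg N Q) I a (3 / 4 * V) W' (by positivity) hVg
  have hmd := main_det F hFne (eg N Q) (fun i n _ => (ph_norm _ _).le) k Lam hLam I hIF hG
    hIk W' hW'ne b'
  rw [hcard] at hb' hmd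
  rw [hFc] at hmd
  rw [← hGd] at hb'
  refine ⟨fun t => b' (rd N Q t), ?_⟩
  obtain ⟨S, hS⟩ : ∃ S : ℝ, S = ∑ n ∈ F, ‖∑ t ∈ W, phs (b' (rd N Q t)) * ph t n‖ ^ 2 := ⟨_, rfl⟩
  rw [← hS]
  have hS0 : 0 ≤ S := by rw [hS]; exact sum_nonneg fun _ _ => sq_nonneg _
  obtain ⟨w, hw⟩ : ∃ w : ℝ, w = (W.card : ℝ) := ⟨_, rfl⟩
  have hw0 : 0 ≤ w := by rw [hw]; exact Nat.cast_nonneg _
  -- comparison of the sums over all frequencies
  have hSS : ∑ n ∈ F, ‖∑ i ∈ W', phs (b' i) * eg N Q i n‖ ^ 2 ≤ 2 * S + w ^ 2 := by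
    have h1 : ∀ n ∈ F, ‖∑ i ∈ W', phs (b' i) * eg N Q i n‖ ^ 2 ≤
        2 * ‖∑ t ∈ W, phs (b' (rd N Q t)) * ph t n‖ ^ 2 + w ^ 2 / N := by
      intro n hn
      have h2 : ∑ i ∈ W', phs (b' i) * eg N Q i n =
          ∑ t ∈ W, phs (b' (rd N Q t)) * eg N Q (rd N Q t) n := by
        rw [hW', sum_image hinj]
      have h3 : ‖∑ t ∈ W, phs (b' (rd N Q t)) * eg N Q (rd N Q t) n -
          ∑ t ∈ W, phs (b' (rd N Q t)) * ph t n‖ ≤ w * (1 / (4 * N)) := by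
        rw [← sum_sub_distrib]
        refine (norm_sum_le _ _).trans ?_
        calc ∑ t ∈ W, ‖phs (b' (rd N Q t)) * eg N Q (rd N Q t) n - phs (b' (rd N Q t)) * ph t n‖
            ≤ ∑ t ∈ W, 1 / (4 * (N : ℝ)) := by
              apply sum_le_sum
              intro t ht
              rw [← mul_sub, norm_mul, (phs_isPh _).norm, one_mul, norm_sub_rev]
              have h4 := hch t ht n hn
              rw [hρ] at h4
              exact h4
          _ = w * (1 / (4 * N)) := by rw [sum_const, nsmul_eq_mul, hw]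
      rw [h2]
      obtain ⟨x, hx⟩ : ∃ x : ℝ, x = ‖∑ t ∈ W, phs (b' (rd N Q t)) * eg N Q (rd N Q t) n‖ := ⟨_, rfl⟩
      obtain ⟨y, hy⟩ : ∃ y : ℝ, y = ‖∑ t ∈ W, phs (b' (rd N Q t)) * ph t n‖ := ⟨_, rfl⟩
      have h4 := norm_sub_norm_le (∑ t ∈ W, phs (b' (rd N Q t)) * eg N Q (rd N Q t) n)
        (∑ t ∈ W, phs (b' (rd N Q t)) * ph t n)
      rw [← hx, ← hy] at h4 ⊢
      have hx0 : 0 ≤ x := by rw [hx]; exact norm_nonneg _
      have hy0 : 0 ≤ y := by rw [hy]; exact norm_nonneg _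
      have h5 : x ≤ y + w * (1 / (4 * N)) := by linarith
      have h6 : x ^ 2 ≤ (y + w * (1 / (4 * N))) ^ 2 := pow_le_pow_left₀ hx0 h5 2
      have h7 : (y + w * (1 / (4 * N))) ^ 2 ≤ 2 * y ^ 2 + 2 * (w * (1 / (4 * N))) ^ 2 := by
        nlinarith [sq_nonneg (y - w * (1 / (4 * N)))]
      have h8 : 2 * (w * (1 / (4 * (N : ℝ)))) ^ 2 ≤ w ^ 2 / N := by
        have h9 : 2 * (w * (1 / (4 * (N : ℝ)))) ^ 2 = w ^ 2 / (8 * (N : ℝ) ^ 2) := by
          field_simp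
          ring
        rw [h9]
        apply div_le_div_of_nonneg_left (sq_nonneg _) hN0
        nlinarith
      linarith
    refine (sum_le_sum h1).trans ?_
    rw [sum_add_distrib, ← mul_sum, ← hS, sum_const, nsmul_eq_mul, hFc]
    have : c * (w ^ 2 / N) ≤ w ^ 2 := by
      calc c * (w ^ 2 / N) ≤ N * (w ^ 2 / N) := mul_le_mul_of_nonneg_right hcN (by positivity)
        _ = w ^ 2 := by field_simp
    linarith
  have hlog : Real.log (4 * c) ≤ Real.log (4 * (N : ℝ)) :=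
    Real.log_le_log (by linarith) (by linarith)
  have hmd : ∑ n ∈ I, ‖∑ i ∈ W', phs (b' i) * eg N Q i n‖ ^ 2 ≤
      4 * (36 * ((k : ℝ) / c * ∑ n ∈ F, ‖∑ i ∈ W', phs (b' i) * eg N Q i n‖ ^ 2) +
        273 * (W.card : ℝ) ^ 2 * Real.log (4 * (N : ℝ)) * (Lam + 1)) *
        ((Nat.log 2 W.card : ℝ) + 2) + k := by
    refine hmd.trans ?_
    gcongr
  rw [hFc]
  rw [← hw] at hb' hmd ⊢
  obtain ⟨g, hg⟩ : ∃ g : ℝ, g = (Nat.log 2 W.card : ℝ) + 2 := ⟨_, rfl⟩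
  obtain ⟨ℓ, hℓ⟩ : ∃ ℓ : ℝ, ℓ = Real.log (4 * (N : ℝ)) := ⟨_, rfl⟩
  have hwle : W.card ≤ 4 * N ^ 2 * N ^ Q + 1 := by
    rw [← hcard]
    have := card_le_univ W'
    rwa [Fintype.card_fin] at this
  have hBw := hB W.card hwle
  rw [← hg, ← hℓ] at hmd hBw
  have hg1 : 1 ≤ g := by
    rw [hg]
    have : (0 : ℝ) ≤ (Nat.log 2 W.card : ℝ) := Nat.cast_nonneg _
    linarith
  have hℓ1 : 1 ≤ ℓ := by
    rw [hℓ, Real.le_log_iff_exp_le (by positivity)]
    have := Real.exp_one_lt_d9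
    linarith
  obtain ⟨p, hp⟩ : ∃ p : ℝ, p = (k : ℝ) / c := ⟨_, rfl⟩
  rw [← hp] at hmd ⊢
  have hp0 : 0 ≤ p := by rw [hp]; positivity
  have hp1 : p ≤ 1 := by rw [hp, div_le_one hc0]; exact hkc
  obtain ⟨P, hP⟩ : ∃ P : ℝ, P = ℓ * (Lam + 1) * g := ⟨_, rfl⟩
  have hM1 : 1 ≤ ℓ * (Lam + 1) := one_le_mul_of_one_le_of_one_le hℓ1 (by linarith)
  have hP1 : 1 ≤ P := by rw [hP]; exact one_le_mul_of_one_le_of_one_le hM1 hg1
  have hgP : g ≤ P := by
    rw [hP]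
    exact le_mul_of_one_le_left (by linarith) hM1
  have h1 : p * ∑ n ∈ F, ‖∑ i ∈ W', phs (b' i) * eg N Q i n‖ ^ 2 ≤ 2 * (p * S) + w ^ 2 := by
    have h2 := mul_le_mul_of_nonneg_left hSS hp0
    have h3 : p * w ^ 2 ≤ w ^ 2 := mul_le_of_le_one_left (sq_nonneg _) hp1
    linarith
  have h2 : ∑ n ∈ I, ‖∑ i ∈ W', phs (b' i) * eg N Q i n‖ ^ 2 ≤ 1236 * P * (p * S + w ^ 2 + k) := by
    refine hmd.trans ?_
    have hpS : 0 ≤ p * S := mul_nonneg hp0 hS0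
    have h3 : 36 * (p * ∑ n ∈ F, ‖∑ i ∈ W', phs (b' i) * eg N Q i n‖ ^ 2) ≤
        72 * (p * S) + 36 * w ^ 2 := by linarith
    have h4 : 4 * (36 * (p * ∑ n ∈ F, ‖∑ i ∈ W', phs (b' i) * eg N Q i n‖ ^ 2) +
        273 * w ^ 2 * ℓ * (Lam + 1)) * g ≤
        4 * (72 * (p * S) + 36 * w ^ 2 + 273 * w ^ 2 * ℓ * (Lam + 1)) * g := by
      apply mul_le_mul_of_nonneg_right _ (by linarith)
      linarith
    have h5 : 4 * (72 * (p * S) + 36 * w ^ 2 + 273 * w ^ 2 * ℓ * (Lam + 1)) * g =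
        288 * ((p * S) * g) + 144 * (w ^ 2 * g) + 1092 * (w ^ 2 * P) := by
      rw [hP]
      ring
    have h6 : (p * S) * g ≤ (p * S) * P := mul_le_mul_of_nonneg_left hgP hpS
    have h7 : w ^ 2 * g ≤ w ^ 2 * P := mul_le_mul_of_nonneg_left hgP (sq_nonneg _)
    have h8 : (k : ℝ) ≤ k * P := le_mul_of_one_le_right hk0 hP1
    have h9 : 0 ≤ (p * S) * P := mul_nonneg hpS (by linarith)
    have h10 : 0 ≤ k * P := mul_nonneg hk0 (by linarith)
    linarith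
  have h3 : 0 ≤ p * S + w ^ 2 + k := by
    have := mul_nonneg hp0 hS0
    have := sq_nonneg w
    linarith
  have h4 := mul_le_mul_of_nonneg_left h2 (by positivity : 0 ≤ 100 / 49 * G)
  have h5 : (3 / 4 * V) ^ 2 * w ^ 2 = 9 / 16 * (V ^ 2 * w ^ 2) := by ring
  rw [h5] at hb'
  have h6 : V ^ 2 * w ^ 2 ≤ 16 / 9 * (100 / 49 * G * (1236 * P * (p * S + w ^ 2 + k))) := by linarith
  refine h6.trans ?_
  have h7 : 16 / 9 * (100 / 49 * G * (1236 * P * (p * S + w ^ 2 + k))) =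
      (16 / 9 * (100 / 49) * 1236 * P) * (G * (p * S + w ^ 2 + k)) := by ring
  have h8 : B * G * (p * S + w ^ 2 + k) = B * (G * (p * S + w ^ 2 + k)) := by ring
  rw [h7, h8]
  apply mul_le_mul_of_nonneg_right _ (mul_nonneg hG0 h3)
  rw [← hP] at hBw
  linarith

/-- **BAS** -/
theorem t_BAS : S_BAS := fun F M Q k hM hFM hFne Lam hLam I hIF hIk hG B hB =>
  basF_of_good F M Q k hM hFM hFne Lam hLam I hIF hIk hG B hB

end Pool.Agent.J6H96.SM
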