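import Pool.Agent.J6H96.SM.Stm

/-!
Project SM, module CNT: the number of the bad outcomes (adapted from the start file `Y959/Rs/Cnt.lean`).
-/

set_option autoImplicit false

namespace Pool.Agent.J6H96.SM

open Finset
open Pool.Agent.Y959.Rs
open Pool.Agent.Y959.Her

theorem t_CNT2 (hBAD : S_BAD) : S_CNT := by
  classical
  intro Ω O sl F hF k Ck hCk0 hsl hQ ι _ e δ hδ hδ1 hι
  have hFc : (1 : ℝ) ≤ F.card := by exact_mod_cast card_pos.2 hF
  have hιc : (1 : ℝ) ≤ Fintype.card ι := by exact_mod_cast hι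
  obtain ⟨Lam, hLam⟩ : ∃ Lam, Lam = Real.log (8 * Fintype.card ι * F.card ^ 2 / δ) := ⟨_, rfl⟩
  rw [← hLam]
  have harg : (8 : ℝ) ≤ 8 * Fintype.card ι * F.card ^ 2 / δ := by
    rw [le_div_iff₀ hδ]
    have h1 : (1 : ℝ) ≤ Fintype.card ι * F.card ^ 2 :=
      one_le_mul_of_one_le_of_one_le hιc (one_le_pow₀ hFc)
    nlinarith
  have hLam2 : 1 ≤ Lam := by
    rw [hLam, Real.le_log_iff_exp_le (by linarith)]
    have := Real.exp_one_lt_d9
    linarith
  have hexp : Real.exp (-Lam) = δ / (8 * Fintype.card ι * F.card ^ 2) := by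
    rw [Real.exp_neg, hLam, Real.exp_log (by linarith), inv_div]
  -- the superlevel sets
  set B : (m : ℕ) → (Fin m → ι × Fin 4) → ℕ → Finset ℕ := fun m c n0 =>
    F.filter (fun n => ‖gsum e c n0‖ ≤ ‖gsum e c n‖) with hB
  set rr : (m : ℕ) → (Fin m → ι × Fin 4) → ℕ → ℕ := fun m c n0 =>
    ⌈9 * ((k : ℝ) / F.card * ((B m c n0).card : ℝ)) + m * Lam⌉₊ with hrr
  have hsub : O.filter (fun ω => ¬ GoodI F e k Lam (sl ω)) ⊆
      (Icc 1 F.card).biUnion (fun m => (univ : Finset (Fin m → ι × Fin 4)).biUnion (fun c =>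
        F.biUnion (fun n0 => O.filter (fun ω => rr m c n0 ≤ (sl ω ∩ B m c n0).card)))) := by
    intro ω hI
    rw [mem_filter] at hI
    obtain ⟨hIk, hbad⟩ := hI
    have hIF := hsl ω hIk
    obtain ⟨I, hI0⟩ : ∃ I, I = sl ω := ⟨_, rfl⟩
    rw [← hI0] at hbad hIF
    unfold GoodI at hbad
    push Not at hbad
    obtain ⟨m, c, v, hm, hlt⟩ := hbad
    have hkF : (0 : ℝ) ≤ 9 * ((k : ℝ) / F.card * ((F.filter (fun n => v ≤ ‖gsum e c n‖)).card : ℝ)) := by
      positivity
    have hmL : (m : ℝ) ≤ m * Lam := by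
      have : (0 : ℝ) ≤ m := Nat.cast_nonneg _
      nlinarith
    have hIpos : 0 < (I.filter (fun n => v ≤ ‖gsum e c n‖)).card := by
      have h1 : (0 : ℝ) < ((I.filter (fun n => v ≤ ‖gsum e c n‖)).card : ℝ) := by
        have : (0 : ℝ) ≤ m := Nat.cast_nonneg _
        linarith
      exact_mod_cast h1
    have hsubF : I.filter (fun n => v ≤ ‖gsum e c n‖) ⊆ F.filter (fun n => v ≤ ‖gsum e c n‖) :=
      filter_subset_filter _ hIF
    have hne : (F.filter (fun n => v ≤ ‖gsum e c n‖)).Nonempty :=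
      (card_pos.1 hIpos).mono hsubF
    obtain ⟨n0, hn0, hmin⟩ := exists_min_image _ (fun n => ‖gsum e c n‖) hne
    have hBe : B m c n0 = F.filter (fun n => v ≤ ‖gsum e c n‖) := by
      rw [hB]
      ext n
      rw [mem_filter, mem_filter]
      constructor
      · rintro ⟨h1, h2⟩
        exact ⟨h1, (mem_filter.1 hn0).2.trans h2⟩
      · rintro ⟨h1, h2⟩
        exact ⟨h1, hmin n (mem_filter.2 ⟨h1, h2⟩)⟩
    have hIB : I ∩ B m c n0 = I.filter (fun n => v ≤ ‖gsum e c n‖) := by
      rw [hBe]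
      ext n
      rw [mem_inter, mem_filter, mem_filter]
      constructor
      · rintro ⟨h1, h2, h3⟩
        exact ⟨h1, h3⟩
      · rintro ⟨h1, h2⟩
        exact ⟨h1, hIF h1, h2⟩
    have hmF : m ≤ F.card := by
      have h1 : ((I.filter (fun n => v ≤ ‖gsum e c n‖)).card : ℝ) ≤ F.card := by
        exact_mod_cast (card_le_card hsubF).trans (card_filter_le _ _)
      have h2 : (m : ℝ) ≤ F.card := by linarith
      exact_mod_cast h2
    rw [mem_biUnion]
    refine ⟨m, mem_Icc.2 ⟨hm, hmF⟩, ?_⟩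
    rw [mem_biUnion]
    refine ⟨c, mem_univ _, ?_⟩
    rw [mem_biUnion]
    refine ⟨n0, (mem_filter.1 hn0).1, mem_filter.2 ⟨hIk, ?_⟩⟩
    rw [← hI0, hIB, hrr]
    simp only
    rw [hBe]
    apply Nat.ceil_le.2
    linarith
  have h1 : ((O.filter (fun ω => ¬ GoodI F e k Lam (sl ω))).card : ℝ) ≤
      ∑ m ∈ Icc 1 F.card, ∑ c : Fin m → ι × Fin 4, ∑ n0 ∈ F,
        ((O.filter (fun ω => rr m c n0 ≤ (sl ω ∩ B m c n0).card)).card : ℝ) := by
    have h2 := (card_le_card hsub).trans card_biUnion_le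
    refine le_trans (by exact_mod_cast h2 : _ ≤ ((∑ m ∈ Icc 1 F.card,
      ((univ : Finset (Fin m → ι × Fin 4)).biUnion (fun c =>
        F.biUnion (fun n0 => O.filter
          (fun ω => rr m c n0 ≤ (sl ω ∩ B m c n0).card)))).card : ℕ) : ℝ)) ?_
    push_cast
    apply sum_le_sum
    intro m _
    refine le_trans (by exact_mod_cast card_biUnion_le : _ ≤ ((∑ c : Fin m → ι × Fin 4,
      (F.biUnion (fun n0 => O.filter
          (fun ω => rr m c n0 ≤ (sl ω ∩ B m c n0).card))).card : ℕ) : ℝ)) ?_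
    push_cast
    apply sum_le_sum
    intro c _
    exact_mod_cast card_biUnion_le
  refine h1.trans ?_
  have h2 : ∀ m ∈ Icc 1 F.card, ∑ c : Fin m → ι × Fin 4, ∑ n0 ∈ F,
        ((O.filter (fun ω => rr m c n0 ≤ (sl ω ∩ B m c n0).card)).card : ℝ) ≤
      δ / F.card * Ck := by
    intro m hm
    have hm1 := (mem_Icc.1 hm).1
    have h3 : ∀ (c : Fin m → ι × Fin 4), ∀ n0 ∈ F,
        ((O.filter (fun ω => rr m c n0 ≤ (sl ω ∩ B m c n0).card)).card : ℝ) ≤
          (δ / (8 * Fintype.card ι * F.card ^ 2)) ^ m * Ck := by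
      intro c n0 _
      have h4 := hBAD Ω O sl F hF k Ck hCk0 hsl hQ (B m c n0) (filter_subset _ _) (rr m c n0) (by
        refine le_trans ?_ (Nat.le_ceil _)
        have : 0 ≤ (m : ℝ) * Lam := by positivity
        linarith)
      refine h4.trans (mul_le_mul_of_nonneg_right ?_ hCk0)
      rw [← hexp, ← Real.exp_nat_mul]
      have h5 : (3 : ℝ)⁻¹ ≤ Real.exp (-1) := by
        rw [Real.exp_neg]
        exact inv_anti₀ (Real.exp_pos _) (by linarith [Real.exp_one_lt_d9])
      calc ((3 : ℝ)⁻¹) ^ (rr m c n0) ≤ (Real.exp (-1)) ^ (rr m c n0) :=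
            pow_le_pow_left₀ (by norm_num) h5 _
        _ = Real.exp (-(rr m c n0 : ℝ)) := by
            rw [← Real.exp_nat_mul]
            congr 1
            ring
        _ ≤ Real.exp (m * -Lam) := by
            apply Real.exp_le_exp.2
            have h6 : (m : ℝ) * Lam ≤ rr m c n0 := by
              refine le_trans ?_ (Nat.le_ceil _)
              have : (0 : ℝ) ≤ 9 * ((k : ℝ) / F.card * ((B m c n0).card : ℝ)) := by positivity
              linarith
            linarith
    calc ∑ c : Fin m → ι × Fin 4, ∑ n0 ∈ F,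
          ((O.filter (fun ω => rr m c n0 ≤ (sl ω ∩ B m c n0).card)).card : ℝ)
        ≤ ∑ c : Fin m → ι × Fin 4, ∑ n0 ∈ F, (δ / (8 * Fintype.card ι * F.card ^ 2)) ^ m * Ck :=
          sum_le_sum fun c _ => sum_le_sum (h3 c)
      _ = (4 * Fintype.card ι : ℝ) ^ m * (F.card * ((δ / (8 * Fintype.card ι * F.card ^ 2)) ^ m * Ck)) := by
          rw [sum_const, sum_const, nsmul_eq_mul, nsmul_eq_mul, card_univ, Fintype.card_fun,
            Fintype.card_prod, Fintype.card_fin, Fintype.card_fin]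
          push_cast
          rw [mul_comm (4 : ℝ)]
      _ = (δ / (2 * F.card ^ 2)) ^ m * (F.card * Ck) := by
          have e : (4 * Fintype.card ι : ℝ) ^ m * (δ / (8 * Fintype.card ι * F.card ^ 2)) ^ m =
              (δ / (2 * F.card ^ 2)) ^ m := by
            rw [← mul_pow]
            congr 1
            have : (Fintype.card ι : ℝ) ≠ 0 := by linarith
            field_simp
            ring
          rw [← e]
          ring
      _ ≤ (δ / (2 * F.card ^ 2)) * (F.card * Ck) := by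
          apply mul_le_mul_of_nonneg_right _ (by positivity)
          have h7 : δ / (2 * (F.card : ℝ) ^ 2) ≤ 1 := by
            rw [div_le_one (by positivity)]
            have : (1 : ℝ) ≤ (F.card : ℝ) ^ 2 := one_le_pow₀ hFc
            linarith
          exact pow_le_of_le_one (by positivity) h7 (by omega)
      _ ≤ δ / F.card * Ck := by
          have e : δ / (2 * (F.card : ℝ) ^ 2) * (F.card * Ck) = (δ / F.card * Ck) / 2 := by
            field_simp
          rw [e]
          have : 0 ≤ δ / F.card * Ck := by positivity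
          linarith
  refine (sum_le_sum h2).trans ?_
  rw [sum_const, nsmul_eq_mul, Nat.card_Icc, Nat.add_sub_cancel]
  have : (F.card : ℝ) * (δ / F.card * Ck) = δ * Ck := by
    field_simp
  rw [this]

end Pool.Agent.J6H96.SM
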