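import Pool.Agent.J6H96.SM.Stm

/-! Project SM (helper96), module DET (helper10): from the basic property to the large sieve inequality. -/

set_option autoImplicit false

namespace Pool.Agent.J6H96.SM

open Finset
open Pool.Agent.Y959.Rs
open Pool.Agent.Y959.Her
open Pool.Agent.TH705.DL (ph Sep)

/-- **DET** -/
theorem t_DET : S_DET := by
  classical
  intro N q h M hN hh hhq hM F I hFM hFc hIF hIc B hB hbas T W a hT hTh hW hsep
  have hN1 : (1 : ℝ) ≤ N := by exact_mod_cast hN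
  have hh1 : (1 : ℝ) ≤ h := by exact_mod_cast hh
  have hhq' : (h : ℝ) ≤ q := by exact_mod_cast hhq
  have hh0 : (0 : ℝ) < h := by linarith
  have hMr : (M : ℝ) = (N + 1) * q := by rw [hM]; push_cast; ring
  have hM1 : 1 ≤ M := by
    rw [hM]
    exact Nat.mul_pos (by omega) (by omega)
  have hM1' : (1 : ℝ) ≤ M := by exact_mod_cast hM1
  have hqM : (q : ℝ) ≤ M := by rw [hMr]; nlinarith
  obtain ⟨g, hg⟩ : ∃ g : ℝ, g = (Nat.log 2 M : ℝ) + 1 := ⟨_, rfl⟩
  obtain ⟨L1, hL1⟩ : ∃ L1 : ℝ, L1 = 1 + Real.log (T + 1) := ⟨_, rfl⟩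
  obtain ⟨L2, hL2⟩ : ∃ L2 : ℝ, L2 = 1 + Real.log M := ⟨_, rfl⟩
  have hg1 : 1 ≤ g := by
    have := Nat.cast_nonneg (α := ℝ) (Nat.log 2 M)
    linarith
  have hL11 : 1 ≤ L1 := by
    have := Real.log_nonneg (by linarith : (1 : ℝ) ≤ T + 1)
    linarith
  have hL21 : 1 ≤ L2 := by
    have := Real.log_nonneg hM1'
    linarith
  have hXX : XX M T = 200 * g * (L1 + L2) := by
    unfold XX
    rw [hg, hL1, hL2]
  obtain ⟨R, hR⟩ : ∃ R : ℝ, R = (N : ℝ) * q / h := ⟨_, rfl⟩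
  have hRN : (N : ℝ) ≤ R := by
    rw [hR, le_div_iff₀ hh0]
    nlinarith
  have hMh : (M : ℝ) / h ≤ 2 * R := by
    rw [div_le_iff₀ hh0, hR, hMr]
    have e : 2 * ((N : ℝ) * q / h) * h = 2 * (N * q) := by field_simp
    rw [e]
    nlinarith
  have hR1 : 1 ≤ R := hN1.trans hRN
  have hG0 : 0 ≤ ∑ n ∈ I, ‖a n‖ ^ 2 := sum_nonneg fun _ _ => sq_nonneg _
  have hsq : Real.sqrt (T * L2) ≤ h * L2 := by
    have e1 : T * L2 ≤ (h * L2) ^ 2 := by
      calc T * L2 ≤ (h : ℝ) ^ 2 * L2 := mul_le_mul_of_nonneg_right hTh (by linarith)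
        _ ≤ (h : ℝ) ^ 2 * L2 ^ 2 := by
          apply mul_le_mul_of_nonneg_left _ (by positivity)
          nlinarith
        _ = (h * L2) ^ 2 := by ring
    calc Real.sqrt (T * L2) ≤ Real.sqrt ((h * L2) ^ 2) := Real.sqrt_le_sqrt e1
      _ = h * L2 := Real.sqrt_sq (by nlinarith)
  have hWc : (0 : ℝ) ≤ W.card := Nat.cast_nonneg _
  have hgL : 0 ≤ 200 * g * (L1 + L2) := by nlinarith
  rw [← hR, hXX]
  refine lev_sum I N hIc a W (B * (200 * g * (L1 + L2) * (R + W.card)))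
    (mul_nonneg hB (mul_nonneg hgL (by linarith))) ?_
  intro V hV hG
  obtain ⟨W', hW'⟩ : ∃ W', W' = W.filter (fun t => V ≤ ‖∑ n ∈ I, a n * ph t n‖) := ⟨_, rfl⟩
  rw [← hW']
  rcases W'.eq_empty_or_nonempty with he | hne
  · rw [he, card_empty, Nat.cast_zero, mul_zero]
    exact mul_nonneg (mul_nonneg hB (mul_nonneg hgL (by linarith))) hG0
  have hsubW : W' ⊆ W := by rw [hW']; exact filter_subset _ _
  have hsep' : Sep W' := fun s hs t ht => hsep s (hsubW hs) t (hsubW ht)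
  have hTM : T ≤ (M : ℝ) ^ 2 := by
    refine hTh.trans ?_
    exact pow_le_pow_left₀ hh0.le (hhq'.trans hqM) 2
  obtain ⟨b, hb⟩ := hbas W' a V
    (fun t ht => ⟨(hW t (hsubW ht)).1, (hW t (hsubW ht)).2.trans hTM⟩) hsep' hne hV hG
    (fun t ht => by
      rw [hW'] at ht
      exact (mem_filter.1 ht).2)
  have hS : ∑ n ∈ F, ‖∑ t ∈ W', phs (b t) * ph t n‖ ^ 2 ≤
      W'.card * (M + ((Nat.log 2 M : ℝ) + 1) * (84 * M * (1 + Real.log (T + 1)) +
      W'.card * (14 * Real.sqrt (T * (1 + Real.log M))))) :=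
    (sum_le_sum_of_subset_of_nonneg hFM (fun _ _ _ => sq_nonneg _)).trans
      (halaszR M hM1 T hT W' (fun t ht => hW t (hsubW ht)) hsep' b)
  rw [← hg, ← hL1, ← hL2] at hS
  have hk : (N : ℝ) / F.card = 1 / h := by
    rw [hFc]
    push_cast
    field_simp
  rw [hk] at hb
  obtain ⟨w, hw⟩ : ∃ w : ℝ, w = (W'.card : ℝ) := ⟨_, rfl⟩
  have hw1 : 1 ≤ w := by
    rw [hw]
    exact_mod_cast hne.card_pos
  have hwW : w ≤ W.card := by
    rw [hw]
    exact_mod_cast card_le_card hsubW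
  rw [← hw] at hb hS ⊢
  have hS2 : 1 / (h : ℝ) * ∑ n ∈ F, ‖∑ t ∈ W', phs (b t) * ph t n‖ ^ 2 ≤
      w * (2 * R + g * (84 * (2 * R) * L1 + w * (14 * L2))) := by
    calc 1 / (h : ℝ) * ∑ n ∈ F, ‖∑ t ∈ W', phs (b t) * ph t n‖ ^ 2
        ≤ 1 / (h : ℝ) * (w * (M + g * (84 * M * L1 + w * (14 * Real.sqrt (T * L2))))) :=
          mul_le_mul_of_nonneg_left hS (by positivity)
      _ = w * (M / h + g * (84 * (M / h) * L1 + w * (14 * (Real.sqrt (T * L2) / h)))) := by
          field_simp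
      _ ≤ w * (2 * R + g * (84 * (2 * R) * L1 + w * (14 * L2))) := by
          have e2 : Real.sqrt (T * L2) / h ≤ L2 := by
            rw [div_le_iff₀ hh0]
            linarith
          have e3 : 84 * ((M : ℝ) / h) * L1 ≤ 84 * (2 * R) * L1 := by
            apply mul_le_mul_of_nonneg_right _ (by linarith)
            linarith
          have e4 : w * (14 * (Real.sqrt (T * L2) / h)) ≤ w * (14 * L2) := by
            apply mul_le_mul_of_nonneg_left _ (by linarith)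
            linarith
          have e5 : g * (84 * ((M : ℝ) / h) * L1 + w * (14 * (Real.sqrt (T * L2) / h))) ≤
              g * (84 * (2 * R) * L1 + w * (14 * L2)) :=
            mul_le_mul_of_nonneg_left (by linarith) (by linarith)
          exact mul_le_mul_of_nonneg_left (by linarith) (by linarith)
  have hfin : 1 / (h : ℝ) * (∑ n ∈ F, ‖∑ t ∈ W', phs (b t) * ph t n‖ ^ 2) + w ^ 2 + N ≤
      w * (200 * g * (L1 + L2) * (R + w)) := by
    obtain ⟨A, hA⟩ : ∃ A : ℝ, A = g * L1 := ⟨_, rfl⟩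
    obtain ⟨D, hD⟩ : ∃ D : ℝ, D = g * L2 := ⟨_, rfl⟩
    have hA1 : 1 ≤ A := by rw [hA]; nlinarith
    have hD1 : 1 ≤ D := by rw [hD]; nlinarith
    have hin : 2 * R + g * (84 * (2 * R) * L1 + w * (14 * L2)) + w + R ≤ 200 * g * (L1 + L2) * (R + w) := by
      have e1 : 2 * R + g * (84 * (2 * R) * L1 + w * (14 * L2)) + w + R =
          3 * R + 168 * (A * R) + 14 * (D * w) + w := by rw [hA, hD]; ring
      have e2 : 200 * g * (L1 + L2) * (R + w) = 200 * (A * R) + 200 * (A * w) + 200 * (D * R) + 200 * (D * w) := by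
        rw [hA, hD]; ring
      rw [e1, e2]
      have f1 : R ≤ A * R := le_mul_of_one_le_left (by linarith) hA1
      have f2 : w ≤ D * w := le_mul_of_one_le_left (by linarith) hD1
      have f3 : 0 ≤ A * w := by nlinarith
      have f4 : 0 ≤ D * R := by nlinarith
      linarith
    have h1 := mul_le_mul_of_nonneg_left hin (by linarith : (0 : ℝ) ≤ w)
    have h2 : (N : ℝ) ≤ w * R := by nlinarith
    nlinarith [h1, h2, hS2]
  have hY : w * (200 * g * (L1 + L2) * (R + w)) ≤ w * (200 * g * (L1 + L2) * (R + W.card)) := by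
    apply mul_le_mul_of_nonneg_left _ (by linarith)
    exact mul_le_mul_of_nonneg_left (by linarith) hgL
  have hBG : 0 ≤ B * ∑ n ∈ I, ‖a n‖ ^ 2 := mul_nonneg hB hG0
  have h3 := mul_le_mul_of_nonneg_left (hfin.trans hY) hBG
  have h4 : V ^ 2 * w * w ≤ (B * (200 * g * (L1 + L2) * (R + W.card)) * ∑ n ∈ I, ‖a n‖ ^ 2) * w := by
    calc V ^ 2 * w * w = V ^ 2 * w ^ 2 := by ring
      _ ≤ _ := hb
      _ ≤ _ := h3
      _ = _ := by ring
  exact le_of_mul_le_mul_right h4 (by linarith)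

end Pool.Agent.J6H96.SM
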