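import Pool.Agent.J6H96.SM.Stm

/-!
# SM-LOG: absorption of the logarithms (helper98, for helper96)
-/

set_option autoImplicit false

namespace Pool.Agent.J6H96.SM

open Pool.Agent.Y959.Rs

theorem t_LOG : S_LOG := by
  intro K ε hε
  obtain ⟨C, hC, h⟩ := log_pow3 ε hε
  have hK0 : (0 : ℝ) ≤ K := Nat.cast_nonneg _
  refine ⟨400 * ((2 * K + 3) * (3 * K + 4)) * C, ?_, ?_⟩
  · have h1 : (1 : ℝ) ≤ 400 * ((2 * K + 3) * (3 * K + 4)) := by nlinarith
    nlinarith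
  intro N M T hN hM hMN hT0 hT
  have hN1 : (1 : ℝ) ≤ N := by exact_mod_cast hN
  have hM1 : (1 : ℝ) ≤ M := by exact_mod_cast hM
  have hN0 : (0 : ℝ) < N := by linarith
  obtain ⟨L, hL⟩ : ∃ L : ℝ, L = 1 + Real.log N := ⟨_, rfl⟩
  have hl0 : 0 ≤ Real.log N := Real.log_nonneg hN1
  have hL1 : 1 ≤ L := by linarith
  have hlogs : Real.log 2 < 0.6931471808 := Real.log_two_lt_d9
  have hlM0 : 0 ≤ Real.log M := Real.log_nonneg hM1
  have a1 : Real.log M ≤ (K + 1) * L := by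
    have h1 := Real.log_le_log (by linarith) hMN
    rw [Real.log_mul (by norm_num) (by positivity), Real.log_pow] at h1
    push_cast at h1
    nlinarith
  have a2 : (Nat.log 2 M : ℝ) + 1 ≤ (2 * K + 3) * L := by
    have h1 := log2_leR M hM
    nlinarith
  have a3 : 1 + Real.log (T + 1) ≤ (2 * K + 2) * L := by
    have hNQ : (1 : ℝ) ≤ (N : ℝ) ^ (2 * K) := one_le_pow₀ hN1
    have h1 := Real.log_le_log (by linarith) (by linarith : T + 1 ≤ 2 * (N : ℝ) ^ (2 * K))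
    rw [Real.log_mul (by norm_num) (by positivity), Real.log_pow] at h1
    push_cast at h1
    nlinarith
  have a4 : (Nat.log 2 N : ℝ) + 2 ≤ 2 * L := by
    have h1 := log2_leR N hN
    linarith
  have b1 : (0 : ℝ) ≤ (Nat.log 2 M : ℝ) := Nat.cast_nonneg _
  have b2 : (0 : ℝ) ≤ (Nat.log 2 N : ℝ) := Nat.cast_nonneg _
  have b3 : 0 ≤ Real.log (T + 1) := Real.log_nonneg (by linarith)
  have c1 : (1 + Real.log (T + 1)) + (1 + Real.log M) ≤ (3 * K + 4) * L := by nlinarith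
  have c2 : ((Nat.log 2 M : ℝ) + 1) * ((1 + Real.log (T + 1)) + (1 + Real.log M)) ≤
      ((2 * K + 3) * L) * ((3 * K + 4) * L) :=
    mul_le_mul a2 c1 (by linarith) (by positivity)
  have c3 : ((Nat.log 2 M : ℝ) + 1) * ((1 + Real.log (T + 1)) + (1 + Real.log M)) *
      ((Nat.log 2 N : ℝ) + 2) ≤ ((2 * K + 3) * L) * ((3 * K + 4) * L) * (2 * L) :=
    mul_le_mul c2 a4 (by linarith) (by positivity)
  have h3 := h N hN
  rw [← hL] at h3
  unfold XX
  calc 200 * ((Nat.log 2 M : ℝ) + 1) * ((1 + Real.log (T + 1)) + (1 + Real.log M)) *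
        ((Nat.log 2 N : ℝ) + 2)
      = 200 * (((Nat.log 2 M : ℝ) + 1) * ((1 + Real.log (T + 1)) + (1 + Real.log M)) *
        ((Nat.log 2 N : ℝ) + 2)) := by ring
    _ ≤ 200 * (((2 * K + 3) * L) * ((3 * K + 4) * L) * (2 * L)) := by
        exact mul_le_mul_of_nonneg_left c3 (by norm_num)
    _ = 400 * ((2 * K + 3) * (3 * K + 4)) * L ^ 3 := by ring
    _ ≤ 400 * ((2 * K + 3) * (3 * K + 4)) * (C * (N : ℝ) ^ ε) :=
        mul_le_mul_of_nonneg_left h3 (by positivity)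
    _ = 400 * ((2 * K + 3) * (3 * K + 4)) * C * (N : ℝ) ^ ε := by ring

end Pool.Agent.J6H96.SM
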