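import Pool.Agent.J6H96.SM.Stm2

/-!
# SM-MEAS, SM-CELL: cells of a grid (helper19)
-/

set_option autoImplicit false

namespace Pool.Agent.J6H96.SM

open Finset MeasureTheory

theorem t_CELL : S_CELL := by
  intro N q h η x hq hη hx
  have hq0 : (0 : ℝ) < q := by exact_mod_cast hq
  have hpos : ∀ n, 0 < ⌈x n * q⌉₊ := fun n => Nat.ceil_pos.2 (mul_pos (hx n).1 hq0)
  have hle : ∀ n, ⌈x n * q⌉₊ ≤ h := fun n =>
    Nat.ceil_le.2 ((mul_le_mul_of_nonneg_right (hx n).2 hq0.le).trans hη)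
  refine ⟨fun n => ⟨⌈x n * q⌉₊ - 1, by have h1 := hpos n; have h2 := hle n; omega⟩, fun n => ?_⟩
  have h1 := hpos n
  constructor
  · rw [div_lt_iff₀ hq0]
    exact Nat.lt_ceil.1 (show ⌈x n * q⌉₊ - 1 < ⌈x n * q⌉₊ by omega)
  · rw [le_div_iff₀ hq0]
    have h2 : ((⌈x n * q⌉₊ - 1 : ℕ) : ℝ) + 1 = (⌈x n * q⌉₊ : ℝ) := by
      have h3 : ⌈x n * q⌉₊ - 1 + 1 = ⌈x n * q⌉₊ := by omega
      exact_mod_cast h3
    show x n * q ≤ ((⌈x n * q⌉₊ - 1 : ℕ) : ℝ) + 1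
    rw [h2]
    exact Nat.le_ceil _

theorem t_MEAS : S_MEAS := by
  intro N q h Bad hq
  have hq0 : (0 : ℝ) < q := by exact_mod_cast hq
  have e : {x : Fin N → ℝ | ∃ u ∈ Bad, ∀ n, ((u n : ℕ) : ℝ) / q < x n ∧
      x n ≤ (((u n : ℕ) : ℝ) + 1) / q} =
      ⋃ u ∈ Bad, Set.pi Set.univ
        (fun n => Set.Ioc (((u n : ℕ) : ℝ) / q) ((((u n : ℕ) : ℝ) + 1) / q)) := by
    ext x
    simp only [Set.mem_setOf_eq, Set.mem_iUnion, Set.mem_pi, Set.mem_univ, true_implies,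
      Set.mem_Ioc, exists_prop]
  rw [e]
  refine (measure_biUnion_finset_le Bad _).trans ?_
  have h1 : ∀ u ∈ Bad, volume (Set.pi Set.univ
      (fun n => Set.Ioc (((u n : ℕ) : ℝ) / q) ((((u n : ℕ) : ℝ) + 1) / q))) =
      ENNReal.ofReal (1 / (q : ℝ) ^ N) := by
    intro u _
    rw [Real.volume_pi_Ioc]
    have h2 : ∀ n : Fin N, ENNReal.ofReal ((((u n : ℕ) : ℝ) + 1) / q - ((u n : ℕ) : ℝ) / q) =
        ENNReal.ofReal (1 / q) := by
      intro n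
      congr 1
      ring
    rw [Finset.prod_congr rfl (fun n _ => h2 n), Finset.prod_const, Finset.card_univ,
      Fintype.card_fin, ← ENNReal.ofReal_pow (by positivity), one_div_pow]
  rw [Finset.sum_congr rfl h1, Finset.sum_const, nsmul_eq_mul, ← ENNReal.ofReal_natCast,
    ← ENNReal.ofReal_mul (by positivity), mul_one_div]

end Pool.Agent.J6H96.SM
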