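import Pool.Agent.J6H96.SM.Stm2

/-!
# Module ROUND of project SM (written by helper36)
-/

set_option autoImplicit false

namespace Pool.Agent.J6H96.SM

open Finset MeasureTheory

/-- the logarithm is `1`-Lipschitz on `[1, ∞)` -/
theorem round_log {a b : ℝ} (ha : 1 ≤ a) (hb : 1 ≤ b) : |Real.log a - Real.log b| ≤ |a - b| := by
  wlog h : b ≤ a generalizing a b with H
  · rw [abs_sub_comm, abs_sub_comm a b]
    exact H hb ha (le_of_not_ge h)
  have hb0 : 0 < b := lt_of_lt_of_le one_pos hb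
  have ha0 : 0 < a := lt_of_lt_of_le one_pos ha
  rw [abs_of_nonneg (sub_nonneg.mpr (Real.log_le_log hb0 h)), abs_of_nonneg (sub_nonneg.mpr h),
    ← Real.log_div ha0.ne' hb0.ne']
  have h1 := Real.log_le_sub_one_of_pos (div_pos ha0 hb0)
  refine h1.trans ?_
  rw [div_sub_one hb0.ne', div_le_iff₀ hb0]
  nlinarith [sub_nonneg.mpr h]

theorem round_exp (t α β : ℝ) :
    ‖Complex.exp (Complex.I * (t : ℂ) * (α : ℂ)) - Complex.exp (Complex.I * (t : ℂ) * (β : ℂ))‖ ≤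
      |t| * |α - β| := by
  have h1 : Complex.exp (Complex.I * (t : ℂ) * (α : ℂ)) -
      Complex.exp (Complex.I * (t : ℂ) * (β : ℂ)) =
      Complex.exp (((t * β : ℝ) : ℂ) * Complex.I) *
        (Complex.exp (Complex.I * ((t * (α - β) : ℝ) : ℂ)) - 1) := by
    rw [mul_sub, mul_one, ← Complex.exp_add]
    congr 2
    · push_cast
      ring
    · push_cast
      ring
  rw [h1, norm_mul, Complex.norm_exp_ofReal_mul_I, one_mul]
  refine (Real.norm_exp_I_mul_ofReal_sub_one_le (x := t * (α - β))).trans ?_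
  rw [Real.norm_eq_abs, abs_mul]

theorem t_ROUND : S_ROUND := by
  intro N q h u x hN hq hx a t T ht hT
  have hq0 : (0 : ℝ) < q := by exact_mod_cast hq
  have hN0 : (0 : ℝ) < N := by exact_mod_cast hN
  have hT0 : 0 ≤ T := (abs_nonneg t).trans ht
  set y : Fin N → ℝ := fun n => (((u n : ℕ) : ℝ) + 1) / q with hy
  have hdiff : ‖DX x a t - DX y a t‖ ≤ (1 / N) * ∑ n, ‖a n‖ := by
    rw [DX, DX, ← Finset.sum_sub_distrib, Finset.mul_sum]
    refine (norm_sum_le _ _).trans (Finset.sum_le_sum fun n _ => ?_)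
    rw [← mul_sub, norm_mul, mul_comm]
    refine mul_le_mul_of_nonneg_right ?_ (norm_nonneg _)
    refine (round_exp t _ _).trans ?_
    have hy0 : 0 ≤ y n := by
      rw [hy]
      positivity
    have h1 : |Real.log ((n : ℕ) + 1 + x n) - Real.log ((n : ℕ) + 1 + y n)| ≤ 1 / q := by
      have hn : (0 : ℝ) ≤ ((n : ℕ) : ℝ) := Nat.cast_nonneg _
      refine (round_log (by linarith [(hx n).1]) (by linarith)).trans ?_
      have h2 : ((n : ℕ) : ℝ) + 1 + x n - (((n : ℕ) : ℝ) + 1 + y n) = x n - y n := by ring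
      rw [h2]
      exact (hx n).2
    calc |t| * |Real.log ((n : ℕ) + 1 + x n) - Real.log ((n : ℕ) + 1 + y n)|
        ≤ T * (1 / q) := mul_le_mul ht h1 (abs_nonneg _) hT0
      _ ≤ 1 / N := by
        rw [mul_one_div, div_le_div_iff₀ hq0 hN0, one_mul]
        exact hT
  have hcs : (∑ n, ‖a n‖) ^ 2 ≤ N * ∑ n, ‖a n‖ ^ 2 := by
    have := sq_sum_le_card_mul_sum_sq (s := (Finset.univ : Finset (Fin N))) (f := fun n => ‖a n‖)
    simpa using this
  have hS : 0 ≤ ∑ n, ‖a n‖ ^ 2 := Finset.sum_nonneg fun n _ => by positivity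
  have hd2 : ‖DX x a t - DX y a t‖ ^ 2 ≤ ∑ n, ‖a n‖ ^ 2 := by
    have h1 : ‖DX x a t - DX y a t‖ ^ 2 ≤ ((1 / N) * ∑ n, ‖a n‖) ^ 2 :=
      pow_le_pow_left₀ (norm_nonneg _) hdiff 2
    refine h1.trans ?_
    rw [mul_pow]
    have h2 : (1 / (N : ℝ)) ^ 2 * (∑ n, ‖a n‖) ^ 2 ≤ (1 / (N : ℝ)) ^ 2 * (N * ∑ n, ‖a n‖ ^ 2) :=
      mul_le_mul_of_nonneg_left hcs (by positivity)
    refine h2.trans ?_
    have h3 : (1 / (N : ℝ)) ^ 2 * (N * ∑ n, ‖a n‖ ^ 2) = (1 / N) * ∑ n, ‖a n‖ ^ 2 := by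
      field_simp
    rw [h3]
    have h4 : (1 / (N : ℝ)) ≤ 1 := by
      rw [div_le_one hN0]
      exact_mod_cast hN
    calc (1 / (N : ℝ)) * ∑ n, ‖a n‖ ^ 2 ≤ 1 * ∑ n, ‖a n‖ ^ 2 := mul_le_mul_of_nonneg_right h4 hS
      _ = ∑ n, ‖a n‖ ^ 2 := one_mul _
  have htri : ‖DX x a t‖ ≤ ‖DX y a t‖ + ‖DX x a t - DX y a t‖ := by
    have h1 : DX x a t = DX y a t + (DX x a t - DX y a t) := by ring
    calc ‖DX x a t‖ = ‖DX y a t + (DX x a t - DX y a t)‖ := by rw [← h1]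
      _ ≤ _ := norm_add_le _ _
  have h5 : ‖DX x a t‖ ^ 2 ≤ (‖DX y a t‖ + ‖DX x a t - DX y a t‖) ^ 2 :=
    pow_le_pow_left₀ (norm_nonneg _) htri 2
  nlinarith [sq_nonneg (‖DX y a t‖ - ‖DX x a t - DX y a t‖)]

end Pool.Agent.J6H96.SM
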