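import Pool.Agent.J6H96.SM.Stm

/-!
# Module SM-SUP (helper48): the number of transversals containing a given set
-/

set_option autoImplicit false

namespace Pool.Agent.J6H96.SM

open Finset

theorem t_SUP : S_SUP := by
  intro N h π hπ Q
  by_cases hex : ∃ u₀ : Fin N → Fin h, Q ⊆ sel π u₀
  · obtain ⟨u₀, hu₀⟩ := hex
    set J : Finset (Fin N) := univ.filter fun n => π (n, u₀ n) ∈ Q with hJ
    have hJcard : J.card = Q.card := by
      have himg : J.image (fun n => π (n, u₀ n)) = Q := by
        ext x
        simp only [hJ, mem_image, mem_filter, mem_univ, true_and]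
        constructor
        · rintro ⟨n, hn, rfl⟩
          exact hn
        · intro hx
          have h1 := hu₀ hx
          simp only [sel, mem_image, mem_univ, true_and] at h1
          obtain ⟨n, hn⟩ := h1
          exact ⟨n, by rw [hn]; exact hx, hn⟩
      rw [← himg, Finset.card_image_of_injective]
      intro n m hnm
      have := hπ hnm
      exact (Prod.mk.inj this).1
    have hsub : (univ.filter fun u : Fin N → Fin h => Q ⊆ sel π u) ⊆
        Fintype.piFinset (fun n => if n ∈ J then ({u₀ n} : Finset (Fin h)) else univ) := by
      intro u hu
      rw [Fintype.mem_piFinset]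
      intro n
      by_cases hn : n ∈ J
      · rw [if_pos hn, mem_singleton]
        have h1 : π (n, u₀ n) ∈ Q := (mem_filter.mp hn).2
        have h2 := (mem_filter.mp hu).2 h1
        simp only [sel, mem_image, mem_univ, true_and] at h2
        obtain ⟨m, hm⟩ := h2
        have h3 := hπ hm
        obtain ⟨h4, h5⟩ := Prod.mk.inj h3
        rw [h4] at h5
        exact h5
      · rw [if_neg hn]
        exact mem_univ _
    have hcard := Finset.card_le_card hsub
    rw [Fintype.card_piFinset] at hcard
    have hprod : ∏ n : Fin N, (if n ∈ J then ({u₀ n} : Finset (Fin h)) else univ).card =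
        h ^ (N - Q.card) := by
      have e1 : ∀ n : Fin N, (if n ∈ J then ({u₀ n} : Finset (Fin h)) else univ).card =
          if n ∈ J then 1 else h := by
        intro n
        split_ifs
        · exact card_singleton _
        · rw [card_univ, Fintype.card_fin]
      rw [Finset.prod_congr rfl (fun n _ => e1 n), Finset.prod_ite, Finset.prod_const_one, one_mul,
        Finset.prod_const]
      congr 1
      have e2 : (univ.filter fun n : Fin N => n ∉ J) = Jᶜ := by
        ext n
        simp
      rw [e2, Finset.card_compl, Fintype.card_fin, hJcard]
    rw [hprod] at hcard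
    have hQN : Q.card ≤ N := by
      rw [← hJcard]
      exact (Finset.card_le_univ J).trans (by rw [Fintype.card_fin])
    have hfin : (univ.filter fun u : Fin N → Fin h => Q ⊆ sel π u).card * h ^ Q.card ≤ h ^ N := by
      calc (univ.filter fun u : Fin N → Fin h => Q ⊆ sel π u).card * h ^ Q.card
          ≤ h ^ (N - Q.card) * h ^ Q.card := Nat.mul_le_mul_right _ hcard
        _ = h ^ N := by rw [← pow_add, Nat.sub_add_cancel hQN]
    exact_mod_cast hfin
  · have hempty : (univ.filter fun u : Fin N → Fin h => Q ⊆ sel π u) = ∅ := by
      rw [Finset.filter_eq_empty_iff]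
      intro u _ hu
      exact hex ⟨u, hu⟩
    rw [hempty, card_empty, Nat.cast_zero, zero_mul]
    positivity

end Pool.Agent.J6H96.SM
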