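import Pool.Agent.J6H96.SM.Cont
import Pool.Agent.J6H96.SM.SUP
import Pool.Agent.J6H96.SM.BAD
import Pool.Agent.J6H96.SM.CNT2
import Pool.Agent.J6H96.SM.BAS
import Pool.Agent.J6H96.SM.DET
import Pool.Agent.J6H96.SM.LOG
import Pool.Agent.J6H96.SM.ROUND
import Pool.Agent.J6H96.SM.MEAS

/-!
Random perturbations of the integers: all modules together.
-/

set_option autoImplicit false

namespace Pool.Agent.J6H96.SM

open Finset MeasureTheory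

theorem all (ε A : ℝ) (hε : 0 < ε) (hA : 0 ≤ A) (B : ℕ) : ∃ C : ℝ, 1 ≤ C ∧
    ∀ (N : ℕ) (η : ℝ), 2 ≤ N → 1 ≤ η * (N : ℝ) ^ B → η ≤ 1 →
      volume {x : Fin N → ℝ | (∀ n, 0 < x n ∧ x n ≤ η) ∧ ¬ GoodC C ε N B η x} ≤
        ENNReal.ofReal ((N : ℝ) ^ (-A) * η ^ N) :=
  cont (fun ε A hε hA K => fin t_SUP (t_CNT2 t_BAD) t_BAS t_DET t_LOG ε A hε hA K) t_ROUND t_CELL
    t_MEAS ε A hε hA B

end Pool.Agent.J6H96.SM
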