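import Mathlib

/-!
# Project SM (helper96): MP_71ac24_nt, from discrete to continuous perturbations
-/

set_option autoImplicit false

namespace Pool.Agent.J6H96.SM

open Finset MeasureTheory

/-- `∑_{n=1}^N a_n (n + x_n)^{it}` -/
noncomputable def DX {N : ℕ} (x : Fin N → ℝ) (a : Fin N → ℂ) (t : ℝ) : ℂ :=
  ∑ n : Fin N, a n * Complex.exp (Complex.I * (t : ℂ) * (Real.log ((n : ℕ) + 1 + x n) : ℂ))

/-- **ROUND** (no hypotheses). The logarithm is `1`-Lipschitz on `[1, ∞)` and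
`‖exp(i t α) - exp(i t β)‖ ≤ |t| |α - β|`, so the difference of the two sums is at most
`(T / q) ∑ ‖a n‖ ≤ N⁻¹ √N (∑ ‖a n‖²)^(1/2)`; and `‖z‖² ≤ 2 ‖w‖² + 2 ‖z - w‖²`. -/
def S_ROUND : Prop := ∀ (N q h : ℕ) (u : Fin N → Fin h) (x : Fin N → ℝ), 1 ≤ N → 1 ≤ q →
  (∀ n, 0 ≤ x n ∧ |x n - (((u n : ℕ) : ℝ) + 1) / q| ≤ 1 / q) →
    ∀ (a : Fin N → ℂ) (t T : ℝ), |t| ≤ T → T * N ≤ q →
      ‖DX x a t‖ ^ 2 ≤ 2 * ‖DX (fun n => (((u n : ℕ) : ℝ) + 1) / q) a t‖ ^ 2 + 2 * ∑ n, ‖a n‖ ^ 2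

/-- **CELL** (no hypotheses). `u n = ⌈x n * q⌉ - 1`. -/
def S_CELL : Prop := ∀ (N q h : ℕ) (η : ℝ) (x : Fin N → ℝ), 1 ≤ q → η * q ≤ h →
  (∀ n, 0 < x n ∧ x n ≤ η) → ∃ u : Fin N → Fin h, ∀ n, ((u n : ℕ) : ℝ) / q < x n ∧
    x n ≤ (((u n : ℕ) : ℝ) + 1) / q

/-- **MEAS** (no hypotheses). Union bound; each cell is a box (`Real.volume_pi_Ioc`) of volume `q ^ (-N)`. -/
def S_MEAS : Prop := ∀ (N q h : ℕ) (Bad : Finset (Fin N → Fin h)), 1 ≤ q →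
  volume {x : Fin N → ℝ | ∃ u ∈ Bad, ∀ n, ((u n : ℕ) : ℝ) / q < x n ∧
    x n ≤ (((u n : ℕ) : ℝ) + 1) / q} ≤ ENNReal.ofReal ((Bad.card : ℝ) / (q : ℝ) ^ N)

end Pool.Agent.J6H96.SM
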