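import Pool.Agent.J6H96.SM.Fin
import Pool.Agent.J6H96.SM.Stm2

/-!
Random perturbations of the integers: from discrete to continuous perturbations.
-/

set_option autoImplicit false

namespace Pool.Agent.J6H96.SM

open Finset MeasureTheory
open Pool.Agent.TH705.DL (ph Sep)

/-- the discrete points `(u_n + 1) / q` -/
noncomputable def dx {N h : ℕ} (q : ℕ) (u : Fin N → Fin h) (n : Fin N) : ℝ :=
  (((u n : ℕ) : ℝ) + 1) / q

/-- the inequality for discrete perturbations -/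
def GoodX (C ε : ℝ) (N q h : ℕ) (u : Fin N → Fin h) : Prop :=
  ∀ (T : ℝ) (W : Finset ℝ) (a : Fin N → ℂ), 0 ≤ T → T ≤ (h : ℝ) ^ 2 → (∀ t ∈ W, 0 ≤ t ∧ t ≤ T) →
    Sep W → ∑ t ∈ W, ‖DX (dx q u) a t‖ ^ 2 ≤
      C * (N : ℝ) ^ ε * (W.card + (N : ℝ) * q / h) * ∑ n, ‖a n‖ ^ 2

theorem DX_norm {N h q : ℕ} (hq1 : 1 ≤ q) (u : Fin N → Fin h) (a : Fin N → ℂ) (t : ℝ) :
    ‖DX (dx q u) a t‖ = ‖∑ n : Fin N, a n * ph t (pt q (n, u n))‖ := by
  have hq0 : (0 : ℝ) < q := by exact_mod_cast hq1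
  have h1 : DX (dx q u) a t = Complex.exp (-(Complex.I * (t : ℂ) * (Real.log (q : ℝ) : ℂ))) *
      ∑ n : Fin N, a n * ph t (pt q (n, u n)) := by
    unfold DX
    rw [mul_sum]
    refine sum_congr rfl fun n _ => ?_
    unfold ph
    have h2 : ((n : ℕ) : ℝ) + 1 + dx q u n = ((pt q (n, u n) : ℕ) : ℝ) / q := by
      unfold dx pt
      push_cast
      field_simp
      ring
    have h3 : (0 : ℝ) < ((pt q (n, u n) : ℕ) : ℝ) := by
      have : 0 < pt q (n, u n) := Nat.succ_pos _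
      exact_mod_cast this
    rw [h2, Real.log_div h3.ne' hq0.ne', mul_left_comm, ← Complex.exp_add]
    congr 2
    push_cast
    ring
  rw [h1, norm_mul]
  have h2 : ‖Complex.exp (-(Complex.I * (t : ℂ) * (Real.log (q : ℝ) : ℂ)))‖ = 1 := by
    have h3 : -(Complex.I * (t : ℂ) * (Real.log (q : ℝ) : ℂ)) =
        ((-(t * Real.log q) : ℝ) : ℂ) * Complex.I := by
      push_cast
      ring
    rw [h3, Complex.norm_exp_ofReal_mul_I]
  rw [h2, one_mul]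

theorem goodX_of {C ε : ℝ} {N q h : ℕ} (hq1 : 1 ≤ q) (hq : h ≤ q) (u : Fin N → Fin h)
    (hG : GoodU C ε N q h u) : GoodX C ε N q h u := by
  intro T W a hT hTh hW hsep
  set φ : Fin N → ℕ := fun n => pt q (n, u n) with hφ
  have hinj : Function.Injective φ := by
    intro n m hnm
    have := pt_inj hq hnm
    exact (Prod.mk.injEq _ _ _ _ ▸ this).1
  have h1 := hG T W (Function.extend φ a 0) hT hTh hW hsep
  have h2 : ∑ n ∈ sel (pt q) u, ‖Function.extend φ a 0 n‖ ^ 2 = ∑ n, ‖a n‖ ^ 2 := by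
    unfold sel
    rw [sum_image (fun x _ y _ hxy => hinj hxy)]
    refine sum_congr rfl fun n _ => ?_
    rw [hinj.extend_apply]
  have h3 : ∀ t, ‖∑ n ∈ sel (pt q) u, Function.extend φ a 0 n * ph t n‖ = ‖DX (dx q u) a t‖ := by
    intro t
    rw [DX_norm hq1]
    unfold sel
    rw [sum_image (fun x _ y _ hxy => hinj hxy)]
    congr 1
    refine sum_congr rfl fun n _ => ?_
    rw [show pt q (n, u n) = φ n from rfl, hinj.extend_apply]
  rw [h2] at h1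
  simp only [h3] at h1
  exact h1

/-- the inequality for continuous perturbations of size at most `η` -/
def GoodC (C ε : ℝ) (N B : ℕ) (η : ℝ) (x : Fin N → ℝ) : Prop :=
  ∀ (W : Finset ℝ) (a : Fin N → ℂ), (∀ t ∈ W, 0 ≤ t ∧ t ≤ (N : ℝ) ^ B) → Sep W →
    ∑ t ∈ W, ‖DX x a t‖ ^ 2 ≤ C * (N : ℝ) ^ ε * (W.card + (N : ℝ) / η) * ∑ n, ‖a n‖ ^ 2

open Classical in
theorem cont (hfin : ∀ (ε A : ℝ), 0 < ε → 0 ≤ A → ∀ K : ℕ, ∃ C : ℝ, 1 ≤ C ∧ ∀ N q h : ℕ, 1 ≤ N →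
      1 ≤ h → h ≤ q → q ≤ N ^ K →
        ((univ.filter fun u : Fin N → Fin h => ¬ GoodU C ε N q h u).card : ℝ) ≤
          (N : ℝ) ^ (-A) * (h : ℝ) ^ N)
    (hROUND : S_ROUND) (hCELL : S_CELL) (hMEAS : S_MEAS) (ε A : ℝ) (hε : 0 < ε) (hA : 0 ≤ A)
    (B : ℕ) : ∃ C : ℝ, 1 ≤ C ∧ ∀ (N : ℕ) (η : ℝ), 2 ≤ N → 1 ≤ η * (N : ℝ) ^ B → η ≤ 1 →
      volume {x : Fin N → ℝ | (∀ n, 0 < x n ∧ x n ≤ η) ∧ ¬ GoodC C ε N B η x} ≤
        ENNReal.ofReal ((N : ℝ) ^ (-A) * η ^ N) := by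
  obtain ⟨C, hC, hcnt⟩ := hfin ε (A + 2) hε (by linarith) (2 * B + 2)
  refine ⟨2 * C + 2, by linarith, ?_⟩
  intro N η hN hηN hη1
  have hN2 : (2 : ℝ) ≤ N := by exact_mod_cast hN
  have hN0 : (0 : ℝ) < N := by linarith
  have hN1 : (1 : ℝ) ≤ N := by linarith
  have hNB : (1 : ℝ) ≤ (N : ℝ) ^ B := one_le_pow₀ hN1
  have hη0 : 0 < η := by
    by_contra hcon
    push Not at hcon
    nlinarith
  set q : ℕ := N ^ (2 * B + 2) with hq
  have hqR : (q : ℝ) = (N : ℝ) ^ B * ((N : ℝ) ^ B * (N : ℝ) ^ 2) := by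
    rw [hq]
    push_cast
    ring
  have hq1 : 1 ≤ q := Nat.one_le_pow _ _ (by omega)
  have hq1R : (1 : ℝ) ≤ q := by exact_mod_cast hq1
  have hq0 : (0 : ℝ) < q := by linarith
  set h : ℕ := ⌈η * q⌉₊ with hh
  have hηq : (N : ℝ) ^ B * (N : ℝ) ^ 2 ≤ η * q := by
    rw [hqR]
    have h1 : (0 : ℝ) ≤ (N : ℝ) ^ B * (N : ℝ) ^ 2 := by positivity
    nlinarith
  have hηqN : (N : ℝ) ≤ η * q := by
    refine le_trans ?_ hηq
    nlinarith
  have hηh : η * q ≤ h := Nat.le_ceil _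
  have hhq : h ≤ q := by
    rw [hh]
    apply Nat.ceil_le.2
    exact mul_le_of_le_one_left hq0.le hη1
  have hh1 : 1 ≤ h := by
    rw [hh]
    exact Nat.ceil_pos.2 (by positivity)
  have hhlt : (h : ℝ) ≤ η * q + 1 := (Nat.ceil_lt_add_one (by positivity)).le
  have hh0 : (0 : ℝ) < h := by exact_mod_cast hh1
  have hbad := hcnt N q h (by omega) hh1 hhq le_rfl
  set Bad := univ.filter fun u : Fin N → Fin h => ¬ GoodU C ε N q h u with hBad
  have hsub : {x : Fin N → ℝ | (∀ n, 0 < x n ∧ x n ≤ η) ∧ ¬ GoodC (2 * C + 2) ε N B η x} ⊆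
      {x : Fin N → ℝ | ∃ u ∈ Bad, ∀ n, ((u n : ℕ) : ℝ) / q < x n ∧
        x n ≤ (((u n : ℕ) : ℝ) + 1) / q} := by
    rintro x ⟨hx, hxG⟩
    obtain ⟨u, hu⟩ := hCELL N q h η x hq1 hηh hx
    refine ⟨u, ?_, hu⟩
    rw [hBad, mem_filter]
    refine ⟨mem_univ _, fun hG => hxG ?_⟩
    intro W a hW hsep
    have hX := goodX_of hq1 hhq u hG ((N : ℝ) ^ B) W a (by positivity) (by
      have h1 : (N : ℝ) ^ B ≤ h := by
        refine le_trans ?_ hηh
        refine le_trans ?_ hηq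
        have : (1 : ℝ) ≤ (N : ℝ) ^ 2 := one_le_pow₀ hN1
        nlinarith
      have h2 : (1 : ℝ) ≤ h := by exact_mod_cast hh1
      nlinarith) hW hsep
    have hr : ∀ t ∈ W, ‖DX x a t‖ ^ 2 ≤ 2 * ‖DX (dx q u) a t‖ ^ 2 + 2 * ∑ n, ‖a n‖ ^ 2 := by
      intro t ht
      refine hROUND N q h u x (by omega) hq1 (fun n => ⟨(hx n).1.le, ?_⟩) a t ((N : ℝ) ^ B) ?_ ?_
      · have h1 := (hu n).1
        have h2 := (hu n).2
        rw [abs_le]
        have h3 : (((u n : ℕ) : ℝ) + 1) / q = ((u n : ℕ) : ℝ) / q + 1 / q := by rw [add_div]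
        rw [h3] at h2 ⊢
        have h4 : (0 : ℝ) < 1 / q := by positivity
        constructor <;> linarith
      · rw [abs_of_nonneg (hW t ht).1]
        exact (hW t ht).2
      · rw [hqR]
        have h1 : (N : ℝ) ≤ (N : ℝ) ^ B * (N : ℝ) ^ 2 := by nlinarith
        exact mul_le_mul_of_nonneg_left h1 (by positivity)
    have hG0 : 0 ≤ ∑ n, ‖a n‖ ^ 2 := sum_nonneg fun _ _ => by positivity
    have hNε : (1 : ℝ) ≤ (N : ℝ) ^ ε := Real.one_le_rpow hN1 hε.le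
    have hqh : (N : ℝ) * q / h ≤ N / η := by
      rw [div_le_div_iff₀ hh0 hη0]
      nlinarith
    calc ∑ t ∈ W, ‖DX x a t‖ ^ 2
        ≤ ∑ t ∈ W, (2 * ‖DX (dx q u) a t‖ ^ 2 + 2 * ∑ n, ‖a n‖ ^ 2) := sum_le_sum hr
      _ = 2 * ∑ t ∈ W, ‖DX (dx q u) a t‖ ^ 2 + W.card * (2 * ∑ n, ‖a n‖ ^ 2) := by
          rw [sum_add_distrib, ← mul_sum, sum_const, nsmul_eq_mul]
      _ ≤ 2 * (C * (N : ℝ) ^ ε * (W.card + (N : ℝ) * q / h) * ∑ n, ‖a n‖ ^ 2) +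
          W.card * (2 * ∑ n, ‖a n‖ ^ 2) := by linarith
      _ ≤ 2 * (C * (N : ℝ) ^ ε * (W.card + (N : ℝ) / η) * ∑ n, ‖a n‖ ^ 2) +
          (N : ℝ) ^ ε * (W.card + (N : ℝ) / η) * (2 * ∑ n, ‖a n‖ ^ 2) := by
          have e1 : C * (N : ℝ) ^ ε * (W.card + (N : ℝ) * q / h) * ∑ n, ‖a n‖ ^ 2 ≤
              C * (N : ℝ) ^ ε * (W.card + (N : ℝ) / η) * ∑ n, ‖a n‖ ^ 2 := by
            apply mul_le_mul_of_nonneg_right _ hG0
            apply mul_le_mul_of_nonneg_left _ (by positivity)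
            linarith
          have e2 : (W.card : ℝ) ≤ (N : ℝ) ^ ε * (W.card + (N : ℝ) / η) := by
            have h5 : (0 : ℝ) ≤ (N : ℝ) / η := by positivity
            have h6 : (0 : ℝ) ≤ (W.card : ℝ) := Nat.cast_nonneg _
            nlinarith
          have e3 := mul_le_mul_of_nonneg_right e2 (by positivity : 0 ≤ 2 * ∑ n, ‖a n‖ ^ 2)
          linarith
      _ = (2 * C + 2) * (N : ℝ) ^ ε * (W.card + (N : ℝ) / η) * ∑ n, ‖a n‖ ^ 2 := by ring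
  refine (measure_mono hsub).trans ((hMEAS N q h Bad hq1).trans (ENNReal.ofReal_le_ofReal ?_))
  rw [div_le_iff₀ (by positivity)]
  refine hbad.trans ?_
  have h1 : (h : ℝ) ^ N ≤ 3 * (η * q) ^ N := by
    have h2 : (h : ℝ) ≤ (1 + 1 / N) * (η * q) := by
      have h3 : (1 : ℝ) ≤ 1 / N * (η * q) := by
        rw [one_div, ← div_eq_inv_mul, le_div_iff₀ hN0]
        linarith
      linarith
    have h3 : (1 + 1 / (N : ℝ)) ^ N ≤ 3 := by
      have h4 : 1 + 1 / (N : ℝ) ≤ Real.exp (1 / N) := by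
        have := Real.add_one_le_exp (1 / (N : ℝ))
        linarith
      calc (1 + 1 / (N : ℝ)) ^ N ≤ (Real.exp (1 / N)) ^ N :=
            pow_le_pow_left₀ (by positivity) h4 N
        _ = Real.exp 1 := by
            rw [← Real.exp_nat_mul]
            congr 1
            field_simp
        _ ≤ 3 := by
            have := Real.exp_one_lt_d9
            linarith
    calc (h : ℝ) ^ N ≤ ((1 + 1 / N) * (η * q)) ^ N := pow_le_pow_left₀ hh0.le h2 N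
      _ = (1 + 1 / (N : ℝ)) ^ N * (η * q) ^ N := mul_pow _ _ _
      _ ≤ 3 * (η * q) ^ N := mul_le_mul_of_nonneg_right h3 (by positivity)
  have h2 : (N : ℝ) ^ (-(A + 2)) * 3 ≤ (N : ℝ) ^ (-A) := by
    have h3 : (N : ℝ) ^ (-(A + 2)) = (N : ℝ) ^ (-A) * ((N : ℝ) ^ 2)⁻¹ := by
      rw [neg_add, Real.rpow_add hN0]
      congr 1
      rw [Real.rpow_neg hN0.le]
      congr 1
      exact_mod_cast Real.rpow_natCast (N : ℝ) 2
    have h4 : ((N : ℝ) ^ 2)⁻¹ * 3 ≤ 1 := by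
      rw [inv_mul_le_iff₀ (by positivity)]
      nlinarith
    rw [h3, mul_assoc]
    exact mul_le_of_le_one_right (by positivity) h4
  calc (N : ℝ) ^ (-(A + 2)) * (h : ℝ) ^ N ≤ (N : ℝ) ^ (-(A + 2)) * (3 * (η * q) ^ N) :=
        mul_le_mul_of_nonneg_left h1 (by positivity)
    _ = ((N : ℝ) ^ (-(A + 2)) * 3) * (η * q) ^ N := by ring
    _ ≤ (N : ℝ) ^ (-A) * (η * q) ^ N := mul_le_mul_of_nonneg_right h2 (by positivity)
    _ = (N : ℝ) ^ (-A) * η ^ N * (q : ℝ) ^ N := by rw [mul_pow]; ring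

end Pool.Agent.J6H96.SM
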