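import Pool.Agent.J6H96.SM.Stm

/-!
Random perturbations of the integers: the probabilistic statement.
-/

set_option autoImplicit false

namespace Pool.Agent.J6H96.SM

open Finset
open Pool.Agent.Y959.Rs
open Pool.Agent.TH705.DL (ph Sep)

theorem pt_inj {N h q : ℕ} (hq : h ≤ q) : Function.Injective (pt q : Fin N × Fin h → ℕ) := by
  rintro ⟨n, j⟩ ⟨m, i⟩ hp
  unfold pt at hp
  simp only at hp
  have hj := j.2
  have hi := i.2
  have h1 : (n : ℕ) = m := by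
    rcases lt_trichotomy (n : ℕ) m with h1 | h1 | h1
    · have h2 : ((n : ℕ) + 1 + 1) * q ≤ ((m : ℕ) + 1) * q := Nat.mul_le_mul_right q (by omega)
      have h3 : ((n : ℕ) + 1 + 1) * q = ((n : ℕ) + 1) * q + q := by ring
      omega
    · exact h1
    · have h2 : ((m : ℕ) + 1 + 1) * q ≤ ((n : ℕ) + 1) * q := Nat.mul_le_mul_right q (by omega)
      have h3 : ((m : ℕ) + 1 + 1) * q = ((m : ℕ) + 1) * q + q := by ring
      omega
  have h2 : n = m := Fin.ext h1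
  subst h2
  have h3 : j = i := Fin.ext (by omega)
  rw [h3]

theorem card_full {N h q : ℕ} (hq : h ≤ q) : (full (pt q : Fin N × Fin h → ℕ)).card = N * h := by
  unfold full
  rw [card_image_of_injective _ (pt_inj hq), card_univ, Fintype.card_prod, Fintype.card_fin,
    Fintype.card_fin]

theorem sel_sub {N h : ℕ} (π : Fin N × Fin h → ℕ) (u : Fin N → Fin h) : sel π u ⊆ full π := by
  intro x hx
  unfold sel at hx
  rw [mem_image] at hx
  obtain ⟨n, -, rfl⟩ := hx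
  exact mem_image_of_mem _ (mem_univ _)

theorem card_sel {N h q : ℕ} (hq : h ≤ q) (u : Fin N → Fin h) :
    (sel (pt q : Fin N × Fin h → ℕ) u).card = N := by
  unfold sel
  rw [card_image_of_injective, card_univ, Fintype.card_fin]
  intro n m hnm
  have := pt_inj hq hnm
  exact (Prod.mk.injEq _ _ _ _ ▸ this).1

theorem full_sub {N h q : ℕ} (hq : h ≤ q) :
    full (pt q : Fin N × Fin h → ℕ) ⊆ Icc 1 ((N + 1) * q) := by
  intro x hx
  unfold full at hx
  rw [mem_image] at hx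
  obtain ⟨⟨n, j⟩, -, rfl⟩ := hx
  rw [mem_Icc]
  unfold pt
  simp only
  have hn := n.2
  have hj := j.2
  have h2 : ((n : ℕ) + 1 + 1) * q ≤ (N + 1) * q := Nat.mul_le_mul_right q (by omega)
  have h3 : ((n : ℕ) + 1 + 1) * q = ((n : ℕ) + 1) * q + q := by ring
  omega

/-- the inequality -/
def GoodU (C ε : ℝ) (N q h : ℕ) (u : Fin N → Fin h) : Prop :=
  ∀ (T : ℝ) (W : Finset ℝ) (a : ℕ → ℂ), 0 ≤ T → T ≤ (h : ℝ) ^ 2 → (∀ t ∈ W, 0 ≤ t ∧ t ≤ T) → Sep W →
    ∑ t ∈ W, ‖∑ n ∈ sel (pt q) u, a n * ph t n‖ ^ 2 ≤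
      C * (N : ℝ) ^ ε * (W.card + (N : ℝ) * q / h) * ∑ n ∈ sel (pt q) u, ‖a n‖ ^ 2

open Classical in
theorem fin (hSUP : S_SUP) (hCNT : S_CNT) (hBAS : S_BAS) (hDET : S_DET) (hLOG : S_LOG) (ε A : ℝ)
    (hε : 0 < ε) (hA : 0 ≤ A) (K : ℕ) : ∃ C : ℝ, 1 ≤ C ∧ ∀ N q h : ℕ, 1 ≤ N → 1 ≤ h → h ≤ q →
      q ≤ N ^ K → ((univ.filter fun u : Fin N → Fin h => ¬ GoodU C ε N q h u).card : ℝ) ≤
        (N : ℝ) ^ (-A) * (h : ℝ) ^ N := by
  set ε1 : ℝ := ε / (2 * (K + 1)) with hε1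
  have hK0 : (0 : ℝ) < 2 * (K + 1) := by positivity
  have hε1p : 0 < ε1 := by rw [hε1]; positivity
  obtain ⟨C1, hC1, hab⟩ := absorbR ε1 A hε1p hA 2
  obtain ⟨C2, hC2, hlog⟩ := hLOG K (ε / 2) (by positivity)
  have h2e : (1 : ℝ) ≤ 2 ^ ε1 := Real.one_le_rpow (by norm_num) hε1p.le
  refine ⟨4 * (C1 * 2 ^ ε1 * C2) + 1, by
    have : 0 ≤ C1 * 2 ^ ε1 * C2 := by positivity
    linarith, ?_⟩
  intro N q h hN hh hq hqK
  have hN1 : (1 : ℝ) ≤ N := by exact_mod_cast hN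
  have hN0 : (0 : ℝ) < N := by linarith
  have hh0 : (0 : ℝ) < h := by exact_mod_cast hh
  have hq1 : 1 ≤ q := hh.trans hq
  have hqR : (1 : ℝ) ≤ q := by exact_mod_cast hq1
  set M : ℕ := (N + 1) * q with hM
  have hM1 : 1 ≤ M := Nat.mul_pos (Nat.succ_pos N) hq1
  have hM1R : (1 : ℝ) ≤ M := by exact_mod_cast hM1
  have hM0 : (0 : ℝ) < M := by linarith
  have hNM : N ≤ M := by
    rw [hM]
    calc N ≤ N + 1 := Nat.le_succ N
      _ ≤ (N + 1) * q := Nat.le_mul_of_pos_right _ hq1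
  have hMK : (M : ℝ) ≤ 2 * (N : ℝ) ^ (K + 1) := by
    have h1 : (q : ℝ) ≤ (N : ℝ) ^ K := by exact_mod_cast hqK
    rw [hM]
    push_cast
    calc ((N : ℝ) + 1) * q ≤ (2 * N) * (N : ℝ) ^ K :=
          mul_le_mul (by linarith) h1 (by linarith) (by linarith)
      _ = 2 * (N : ℝ) ^ (K + 1) := by ring
  set F : Finset ℕ := full (pt q : Fin N × Fin h → ℕ) with hF
  have hFc : F.card = N * h := card_full hq
  have hFM : F ⊆ Icc 1 M := full_sub hq
  have hFne : F.Nonempty := by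
    rw [← card_pos, hFc]
    exact Nat.mul_pos hN hh
  have hFcM : (F.card : ℝ) ≤ M := by
    have h1 := card_le_card hFM
    rw [Nat.card_Icc, Nat.add_sub_cancel] at h1
    exact_mod_cast h1
  have hFc1 : (1 : ℝ) ≤ F.card := by exact_mod_cast card_pos.2 hFne
  set δ : ℝ := (M : ℝ) ^ (-A) with hδ
  have hδ0 : 0 < δ := Real.rpow_pos_of_pos hM0 _
  have hδ1 : δ ≤ 1 := Real.rpow_le_one_of_one_le_of_nonpos hM1R (by linarith)
  have hδN : δ ≤ (N : ℝ) ^ (-A) :=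
    Real.rpow_le_rpow_of_nonpos hN0 (by exact_mod_cast hNM) (by linarith)
  have hcnt := hCNT (Fin N → Fin h) univ (sel (pt q)) F hFne N ((h : ℝ) ^ N) (by positivity)
    (fun u _ => sel_sub _ _) (fun Q _ => by
      have h1 := hSUP N h (pt q) (pt_inj hq) Q
      rw [hFc]
      push_cast
      rw [mul_pow]
      have h2 : (0 : ℝ) ≤ (N : ℝ) ^ Q.card := by positivity
      have h3 := mul_le_mul_of_nonneg_left h1 h2
      calc _ = (N : ℝ) ^ Q.card *
            (((univ.filter fun u : Fin N → Fin h => Q ⊆ sel (pt q) u).card : ℝ) *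
              (h : ℝ) ^ Q.card) := by ring
        _ ≤ _ := h3) (Fin (4 * M ^ 2 * M ^ 2 + 1)) (eg M 2) δ hδ0 hδ1 (by
      rw [Fintype.card_fin]; omega)
  refine le_trans ?_ (hcnt.trans (mul_le_mul_of_nonneg_right hδN (by positivity)))
  have hsub : (univ.filter fun u : Fin N → Fin h => ¬ GoodU (4 * (C1 * 2 ^ ε1 * C2) + 1) ε N q h u) ⊆
      univ.filter fun u : Fin N → Fin h => ¬ GoodI F (eg M 2) N (Real.log (8 *
        Fintype.card (Fin (4 * M ^ 2 * M ^ 2 + 1)) * F.card ^ 2 / δ)) (sel (pt q) u) := by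
    intro u hu
    rw [mem_filter] at hu ⊢
    refine ⟨mem_univ _, fun hG => hu.2 ?_⟩
    set Lam : ℝ := Real.log (8 * Fintype.card (Fin (4 * M ^ 2 * M ^ 2 + 1)) * F.card ^ 2 / δ)
      with hLam
    have hιc : (1 : ℝ) ≤ (Fintype.card (Fin (4 * M ^ 2 * M ^ 2 + 1)) : ℝ) := by
      rw [Fintype.card_fin]
      push_cast
      have : (0 : ℝ) ≤ 4 * (M : ℝ) ^ 2 * (M : ℝ) ^ 2 := by positivity
      linarith
    have hLam0 : 0 ≤ Lam := by
      rw [hLam]
      apply Real.log_nonneg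
      rw [le_div_iff₀ hδ0]
      have h1 : (1 : ℝ) ≤ (Fintype.card (Fin (4 * M ^ 2 * M ^ 2 + 1)) : ℝ) * (F.card : ℝ) ^ 2 :=
        one_le_mul_of_one_le_of_one_le hιc (one_le_pow₀ hFc1)
      nlinarith
    have hLamle : Lam ≤ Real.log (8 * (4 * (M : ℝ) ^ 2 * (M : ℝ) ^ 2 + 1) * (M : ℝ) ^ 2 /
        (M : ℝ) ^ (-A)) := by
      rw [hLam]
      apply Real.log_le_log
      · have h1 : (0 : ℝ) < (Fintype.card (Fin (4 * M ^ 2 * M ^ 2 + 1)) : ℝ) := by linarith
        have h2 : (0 : ℝ) < (F.card : ℝ) := by linarith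
        positivity
      · rw [← hδ]
        apply div_le_div_of_nonneg_right _ hδ0.le
        rw [Fintype.card_fin]
        push_cast
        have h2 : (F.card : ℝ) ^ 2 ≤ (M : ℝ) ^ 2 := pow_le_pow_left₀ (by positivity) hFcM 2
        exact mul_le_mul_of_nonneg_left h2 (by positivity)
    set B : ℝ := C1 * (M : ℝ) ^ ε1 with hB
    have hB0 : 0 ≤ B := by positivity
    have hbas := hBAS F M 2 N hM1 hFM hFne Lam hLam0 (sel (pt q) u) (sel_sub _ _) (card_sel hq u) hG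
      B (by
      intro w hw
      refine le_trans ?_ (hab M hM1 w hw)
      have h1 : 0 ≤ Real.log (4 * (M : ℝ)) := Real.log_nonneg (by linarith)
      have h2 : (0 : ℝ) ≤ (Nat.log 2 w : ℝ) + 2 := by positivity
      have h3 : Real.log (4 * (M : ℝ)) * (Lam + 1) ≤ Real.log (4 * (M : ℝ)) *
          (Real.log (8 * (4 * (M : ℝ) ^ 2 * (M : ℝ) ^ 2 + 1) * (M : ℝ) ^ 2 / (M : ℝ) ^ (-A)) + 1) :=
        mul_le_mul_of_nonneg_left (by linarith) h1
      have h4 := mul_le_mul_of_nonneg_right h3 h2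
      linarith)
    intro T W a hT hTh hW hsep
    have hdet := hDET N q h M hN hh hq hM F (sel (pt q) u) hFM hFc (sel_sub _ _) (card_sel hq u) B
      hB0 hbas T W a hT hTh hW hsep
    refine hdet.trans (mul_le_mul_of_nonneg_right ?_ (sum_nonneg fun _ _ => by positivity))
    have hTK : T ≤ (N : ℝ) ^ (2 * K) := by
      have h1 : (h : ℝ) ≤ (N : ℝ) ^ K := by exact_mod_cast hq.trans hqK
      calc T ≤ (h : ℝ) ^ 2 := hTh
        _ ≤ ((N : ℝ) ^ K) ^ 2 := pow_le_pow_left₀ hh0.le h1 2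
        _ = (N : ℝ) ^ (2 * K) := by rw [← pow_mul, mul_comm]
    have hl := hlog N M T hN hM1 hMK hT hTK
    have hMe : (M : ℝ) ^ ε1 ≤ 2 ^ ε1 * (N : ℝ) ^ (ε / 2) := by
      calc (M : ℝ) ^ ε1 ≤ (2 * (N : ℝ) ^ (K + 1)) ^ ε1 :=
            Real.rpow_le_rpow hM0.le hMK hε1p.le
        _ = 2 ^ ε1 * ((N : ℝ) ^ (K + 1)) ^ ε1 := Real.mul_rpow (by norm_num) (by positivity)
        _ = 2 ^ ε1 * (N : ℝ) ^ (ε / 2) := by
            rw [← Real.rpow_natCast (N : ℝ) (K + 1), ← Real.rpow_mul hN0.le]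
            congr 2
            rw [hε1]
            push_cast
            field_simp
    set Y : ℝ := (N : ℝ) * q / h + W.card with hY
    have hY0 : 0 ≤ Y := by positivity
    set P : ℝ := (N : ℝ) ^ (ε / 2) with hP
    have hP0 : 0 ≤ P := by positivity
    have hPP : (N : ℝ) ^ ε = P * P := by
      rw [hP, ← Real.rpow_add hN0]
      congr 1
      ring
    have hP1 : 1 ≤ P := Real.one_le_rpow hN1 (by positivity)
    have hBP : B ≤ C1 * 2 ^ ε1 * P := by
      rw [hB]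
      have := mul_le_mul_of_nonneg_left hMe (by linarith : (0 : ℝ) ≤ C1)
      linarith
    have h1 : 4 * (B * (XX M T * Y)) * ((Nat.log 2 N : ℝ) + 2) =
        4 * Y * (B * (XX M T * ((Nat.log 2 N : ℝ) + 2))) := by ring
    have h2 : B * (XX M T * ((Nat.log 2 N : ℝ) + 2)) ≤ (C1 * 2 ^ ε1 * P) * (C2 * P) := by
      calc B * (XX M T * ((Nat.log 2 N : ℝ) + 2)) ≤ B * (C2 * P) :=
            mul_le_mul_of_nonneg_left hl hB0
        _ ≤ _ := mul_le_mul_of_nonneg_right hBP (by positivity)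
    have h3 : (W.card : ℝ) ≤ P * P * Y := by
      have h4 : (W.card : ℝ) ≤ Y := by
        rw [hY]
        have : (0 : ℝ) ≤ (N : ℝ) * q / h := by positivity
        linarith
      have h5 : 1 ≤ P * P := one_le_mul_of_one_le_of_one_le hP1 hP1
      calc (W.card : ℝ) ≤ Y := h4
        _ ≤ P * P * Y := le_mul_of_one_le_left hY0 h5
    rw [h1, hPP]
    have h4 := mul_le_mul_of_nonneg_left h2 (by positivity : (0 : ℝ) ≤ 4 * Y)
    have h5 : (W.card : ℝ) + (N : ℝ) * q / h = Y := by rw [hY]; ring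
    rw [h5]
    calc 4 * Y * (B * (XX M T * ((Nat.log 2 N : ℝ) + 2))) + W.card
        ≤ 4 * Y * ((C1 * 2 ^ ε1 * P) * (C2 * P)) + P * P * Y := add_le_add h4 h3
      _ = (4 * (C1 * 2 ^ ε1 * C2) + 1) * (P * P) * Y := by ring
  exact_mod_cast card_le_card hsub

end Pool.Agent.J6H96.SM
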