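import Pool.Agent.Y959.Rs.RealE

/-!
# Project SM (helper96): MP_71ac24_nt (Montgomery's large values conjecture), random perturbations of the integers

Target: for `N ≤ h ≤ q ≤ N^K` and random `u_n ∈ {1, …, h}`, `1 ≤ n ≤ N`, with probability `≥ 1 - N^(-A)`: for ALL
`T ≤ h²`, ALL `1`-separated `S ⊂ [0,T]` and ALL complex `a_n`,
`∑_{t ∈ S} |∑_n a_n (n + u_n / q)^{it}|² ≤ C N^ε (|S| + N q / h) ∑ |a_n|²`.

Method: start files `Y959/Rs` (random supports; Maurey's method and a union bound), with random transversals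
of the blocks `(n q, n q + h]` instead of random `k`-sets; the mean over a block is a sum over all integers.

Every module `XX` is a file with a theorem `t_XX : S_XX` (or `theorem t_XX (h1 : S_YY) ... : S_XX`).
Put your file in `Pool/Agent/J6H96/SM/XX.lean` (or in your own folder), `import Pool.Agent.J6H96.SM.Stm`.
All start files needed are in `Pool/Agent/Y959/Rs` (copy them with their imports into your tree and build
`Pool.Agent.Y959.Rs.RealE` once, it takes a few minutes).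
-/

set_option autoImplicit false

namespace Pool.Agent.J6H96.SM

open Finset
open Pool.Agent.Y959.Rs
open Pool.Agent.Y959.Her
open Pool.Agent.TH705.DL (ph Sep)

/-- one point of each block -/
def sel {N h : ℕ} (π : Fin N × Fin h → ℕ) (u : Fin N → Fin h) : Finset ℕ :=
  univ.image fun n => π (n, u n)

/-- all points of the blocks -/
def full {N h : ℕ} (π : Fin N × Fin h → ℕ) : Finset ℕ := univ.image π

/-- the point `(n + 1) q + j + 1` of the block `n` -/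
def pt (q : ℕ) {N h : ℕ} (p : Fin N × Fin h) : ℕ := ((p.1 : ℕ) + 1) * q + (p.2 : ℕ) + 1

/-- **SUP** (no hypotheses). If `Q ⊆ sel π u₀` put `J = {n | π (n, u₀ n) ∈ Q}`, `|J| = |Q|`. If `Q ⊆ sel π u` then
`u n = u₀ n` for `n ∈ J` (injectivity). So at most `h ^ (N - |J|)` choices (`Fintype.card_piFinset` for
`fun n => if n ∈ J then {u₀ n} else univ`). -/
def S_SUP : Prop := ∀ (N h : ℕ) (π : Fin N × Fin h → ℕ), Function.Injective π → ∀ Q : Finset ℕ,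
  ((univ.filter fun u : Fin N → Fin h => Q ⊆ sel π u).card : ℝ) * (h : ℝ) ^ Q.card ≤ (h : ℝ) ^ N

/-- **BAD** (no hypotheses). This is `Pool.Agent.Y959.Rs.bad_one` (file `Y959/Rs/Cnt.lean`, lines 101-137), with
`powersetCard k F` replaced by a finite set `O` of outcomes `ω` with sets `sl ω ⊆ F`, the total number
`F.card.choose k` by `n0`, and `superset_count` by the hypothesis `hO`. Copy the proof. -/
def S_BAD : Prop := ∀ (Ω : Type) (O : Finset Ω) (sl : Ω → Finset ℕ) (F : Finset ℕ), F.Nonempty →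
  ∀ (k : ℕ) (n0 : ℝ), 0 ≤ n0 → (∀ ω ∈ O, sl ω ⊆ F) →
    (∀ Q ⊆ F, ((O.filter fun ω => Q ⊆ sl ω).card : ℝ) * (F.card : ℝ) ^ Q.card ≤
      (k : ℝ) ^ Q.card * n0) →
    ∀ B ⊆ F, ∀ r : ℕ, 9 * ((k : ℝ) / F.card * B.card) ≤ r →
      ((O.filter fun ω => r ≤ (sl ω ∩ B).card).card : ℝ) ≤ ((3 : ℝ)⁻¹) ^ r * n0

open Classical in
/-- **CNT** (hypothesis `S_BAD`). This is `Pool.Agent.Y959.Rs.good_count` (file `Y959/Rs/Cnt.lean`, lines 153-332),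
in the same abstract setting as `S_BAD`. Copy the proof, with `bad_one` replaced by `S_BAD` (`O.card ≤ n0` follows from
the hypothesis for `Q = ∅`). -/
def S_CNT : Prop := ∀ (Ω : Type) (O : Finset Ω) (sl : Ω → Finset ℕ) (F : Finset ℕ), F.Nonempty →
  ∀ (k : ℕ) (n0 : ℝ), 0 ≤ n0 → (∀ ω ∈ O, sl ω ⊆ F) →
    (∀ Q ⊆ F, ((O.filter fun ω => Q ⊆ sl ω).card : ℝ) * (F.card : ℝ) ^ Q.card ≤
      (k : ℝ) ^ Q.card * n0) →
    ∀ (ι : Type) [Fintype ι] (e : ι → ℕ → ℂ) (δ : ℝ), 0 < δ → δ ≤ 1 → 1 ≤ Fintype.card ι →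
      ((O.filter fun ω => ¬ GoodI F e k (Real.log (8 * Fintype.card ι * F.card ^ 2 / δ))
        (sl ω)).card : ℝ) ≤ δ * n0

/-- the basic property, for general sets `F` of frequencies -/
def BasF (F : Finset ℕ) (M Q k : ℕ) (B : ℝ) (I : Finset ℕ) : Prop :=
  ∀ (W : Finset ℝ) (a : ℕ → ℂ) (V : ℝ), (∀ t ∈ W, 0 ≤ t ∧ t ≤ (M : ℝ) ^ Q) → Sep W → W.Nonempty →
    0 < V → ∑ n ∈ I, ‖a n‖ ^ 2 ≤ V ^ 2 →
    (∀ t ∈ W, V ≤ ‖∑ n ∈ I, a n * ph t n‖) → ∃ b : ℝ → Fin 4,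
      V ^ 2 * (W.card : ℝ) ^ 2 ≤ B * (∑ n ∈ I, ‖a n‖ ^ 2) *
        ((k : ℝ) / F.card * ∑ n ∈ F, ‖∑ t ∈ W, phs (b t) * ph t n‖ ^ 2 + (W.card : ℝ) ^ 2 + k)

/-- **BAS** (no hypotheses). This is `Pool.Agent.Y959.Rs.basR_of_good` (file `Y959/Rs/RealB.lean`, lines 192-406),
where `Icc 1 N` (both as the set of frequencies and as the range for the rounding) is replaced by `F ⊆ Icc 1 M`.
Copy the proof with `N := M` for the rounding (`eg M Q`, `rd M Q`, `rd_close`, `rd_inj`) and `F` for the frequencies;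
`main_det` (file `Det.lean`) is already for general `F`, its `Real.log (4 * F.card)` is `≤ Real.log (4 * M)`. -/
def S_BAS : Prop := ∀ (F : Finset ℕ) (M Q k : ℕ), 1 ≤ M → F ⊆ Icc 1 M → F.Nonempty →
  ∀ Lam : ℝ, 0 ≤ Lam → ∀ I ⊆ F, I.card = k → GoodI F (eg M Q) k Lam I → ∀ B : ℝ,
    (∀ w : ℕ, w ≤ 4 * M ^ 2 * M ^ Q + 1 →
      12000 * (Real.log (4 * (M : ℝ)) * (Lam + 1) * ((Nat.log 2 w : ℝ) + 2)) ≤ B) →
    BasF F M Q k B I

/-- the logarithmic factor -/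
noncomputable def XX (M : ℕ) (T : ℝ) : ℝ :=
  200 * ((Nat.log 2 M : ℝ) + 1) * ((1 + Real.log (T + 1)) + (1 + Real.log M))

/-- **DET** (no hypotheses). For `V > 0` with `G = ∑_{n ∈ I} ‖a n‖² ≤ V²` and a nonempty `W' ⊆ W` on which the
values are `≥ V`, `BasF` gives `b` with `V² w² ≤ B G ((1/h) S_F + w² + N)`, `w = |W'|` (`k / |F| = N / (N h) = 1 / h`), and
`S_F = ∑_{x ∈ F} ≤ ∑_{x ∈ Icc 1 M} ≤ w (M + g (84 M (1 + log (T+1)) + w · 14 √(T (1 + log M))))`, `g = log₂ M + 1`, by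
`Pool.Agent.Y959.Rs.halaszR` (file `Y959/Rs/RealK.lean`, with its `N := M`); `√(T (1 + log M)) ≤ h (1 + log M)`,
`M / h ≤ 2 N q / h`, `N ≤ w N q / h`. So `V² w ≤ B G XX (N q / h + w)`. Then `Pool.Agent.Y959.Rs.lev_sum` (file
`Y959/Rs/RealC.lean`) with `A1 = B * (XX M T * (N * q / h + W.card))`. -/
def S_DET : Prop := ∀ (N q h M : ℕ), 1 ≤ N → 1 ≤ h → h ≤ q → M = (N + 1) * q → ∀ (F I : Finset ℕ),
  F ⊆ Icc 1 M → F.card = N * h → I ⊆ F → I.card = N → ∀ B : ℝ, 0 ≤ B → BasF F M 2 N B I →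
    ∀ (T : ℝ) (W : Finset ℝ) (a : ℕ → ℂ), 0 ≤ T → T ≤ (h : ℝ) ^ 2 → (∀ t ∈ W, 0 ≤ t ∧ t ≤ T) → Sep W →
      ∑ t ∈ W, ‖∑ n ∈ I, a n * ph t n‖ ^ 2 ≤
        (4 * (B * (XX M T * ((N : ℝ) * q / h + W.card))) * ((Nat.log 2 N : ℝ) + 2) + W.card) *
          ∑ n ∈ I, ‖a n‖ ^ 2

/-- **LOG** (no hypotheses). All logarithms are `≤ C (1 + log N)` (`Nat.log 2 m ≤ 2 log m`, see `log2_leR` in
`Y959/Rs/RealC.lean`), and `(1 + log N)³ ≤ C N^ε` by `Pool.Agent.Y959.Rs.log_pow3` (file `Y959/Rs/Core.lean`). -/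
def S_LOG : Prop := ∀ (K : ℕ) (ε : ℝ), 0 < ε → ∃ C : ℝ, 1 ≤ C ∧ ∀ (N M : ℕ) (T : ℝ), 1 ≤ N → 1 ≤ M →
  (M : ℝ) ≤ 2 * (N : ℝ) ^ (K + 1) → 0 ≤ T → T ≤ (N : ℝ) ^ (2 * K) →
    XX M T * ((Nat.log 2 N : ℝ) + 2) ≤ C * (N : ℝ) ^ ε

end Pool.Agent.J6H96.SM
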